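import Mathlib

/-! Generic labellings of injective tuples: extension property, embeddings, automorphisms. -/

set_option autoImplicit false

namespace Pool.Agent.H611Z.Clone

open Function Set

/-- A labelling of the nonempty tuples of a type by pairs of Booleans. -/
abbrev Lab (X : Type) := (w : ℕ) → (Fin (w + 1) → X) → Bool × Bool

/-- A set of pairs is the graph of a label preserving injective map. -/
def Compat {X Z : Type} (lx : Lab X) (lz : Lab Z) (R : Set (X × Z)) : Prop :=
  (∀ p ∈ R, ∀ q ∈ R, (p.1 = q.1 ↔ p.2 = q.2)) ∧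
  ∀ (w : ℕ) (t : Fin (w + 1) → X × Z), (∀ i, t i ∈ R) → Injective t →
    lx w (fun i => (t i).1) = lz w (fun i => (t i).2)

/-- One point extension property. -/
def Ext {Z : Type} (lz : Lab Z) : Prop :=
  ∀ (X : Type) (lx : Lab X) (R : Set (X × Z)), R.Finite → Compat lx lz R →
    ∀ x : X, ∃ z : Z, Compat lx lz (insert (x, z) R)

theorem Compat.mono {X Z : Type} {lx : Lab X} {lz : Lab Z} {R S : Set (X × Z)}
    (h : Compat lx lz S) (hs : R ⊆ S) : Compat lx lz R :=
  ⟨fun p hp q hq => h.1 p (hs hp) q (hs hq), fun w t ht hi => h.2 w t (fun i => hs (ht i)) hi⟩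

theorem Compat.swap {X Z : Type} {lx : Lab X} {lz : Lab Z} {R : Set (X × Z)}
    (h : Compat lx lz R) : Compat lz lx (Prod.swap '' R) := by
  refine ⟨?_, ?_⟩
  · rintro _ ⟨p, hp, rfl⟩ _ ⟨q, hq, rfl⟩
    exact (h.1 p hp q hq).symm
  · intro w t ht hi
    have := h.2 w (fun i => (t i).swap) (fun i => by
      obtain ⟨p, hp, e⟩ := ht i
      simpa [← e] using hp) (Prod.swap_injective.comp hi)
    exact this.symm

theorem finite_inj (Y : Type) [Finite Y] :
    {p : Σ w : ℕ, Fin (w + 1) → Y | Injective p.2}.Finite := by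
  refine Set.Finite.subset (Set.Finite.biUnion (Set.finite_Iic (Nat.card Y))
    (fun w _ => Set.finite_range (fun t : Fin (w + 1) → Y =>
      (⟨w, t⟩ : Σ w : ℕ, Fin (w + 1) → Y)))) ?_
  rintro ⟨w, t⟩ ht
  simp only [mem_iUnion, mem_range, mem_Iic]
  refine ⟨w, ?_, t, rfl⟩
  have := Nat.card_le_card_of_injective t ht
  simp at this
  omega

/-- Patterns: a tuple with its largest entry replaced by a marker. -/
abbrev Pat := Σ w : ℕ, Fin (w + 1) → Option ℕ

theorem exists_ext : ∃ lz : Lab ℕ, Ext lz := by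
  classical
  obtain ⟨ψ, hψ⟩ := exists_surjective_nat (Finset Pat × Finset Pat)
  let mx : (w : ℕ) → (Fin (w + 1) → ℕ) → ℕ := fun w a => Finset.univ.sup a
  let pat : (w : ℕ) → (Fin (w + 1) → ℕ) → Pat := fun w a =>
    ⟨w, fun i => if a i = mx w a then none else some (a i)⟩
  let lz : Lab ℕ := fun w a =>
    (decide (pat w a ∈ (ψ (Nat.unpair (mx w a)).1).1),
      decide (pat w a ∈ (ψ (Nat.unpair (mx w a)).1).2))
  refine ⟨lz, ?_⟩
  intro X lx R hR hC x
  by_cases hx : ∃ z, (x, z) ∈ R
  · obtain ⟨z, hz⟩ := hx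
    exact ⟨z, by rwa [Set.insert_eq_of_mem hz]⟩
  have : Finite R := hR
  let toP : (Σ w : ℕ, Fin (w + 1) → Option R) → Pat := fun p =>
    ⟨p.1, fun i => (p.2 i).map (fun r => r.1.2)⟩
  let lb : (Σ w : ℕ, Fin (w + 1) → Option R) → Bool × Bool := fun p =>
    lx p.1 (fun i => ((p.2 i).map (fun r => r.1.1)).getD x)
  have toP_inj : Injective toP := by
    rintro ⟨w, t⟩ ⟨w', t'⟩ h
    simp only [toP, Sigma.mk.injEq] at h
    obtain ⟨rfl, h⟩ := h
    have h := eq_of_heq h
    congr 1
    funext i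
    have hi := congrFun h i
    refine Option.map_injective (f := fun r : R => r.1.2) ?_ hi
    intro r r' e
    have := (hC.1 r.1 r.2 r'.1 r'.2).2 e
    exact Subtype.ext (Prod.ext this e)
  have f1 : (toP '' {p | Injective p.2 ∧ (lb p).1 = true}).Finite :=
    ((finite_inj (Option R)).subset (fun p hp => hp.1)).image _
  have f2 : (toP '' {p | Injective p.2 ∧ (lb p).2 = true}).Finite :=
    ((finite_inj (Option R)).subset (fun p hp => hp.1)).image _
  obtain ⟨n, hn⟩ := hψ (f1.toFinset, f2.toFinset)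
  obtain ⟨N, hN⟩ := (hR.image Prod.snd).bddAbove
  let m := Nat.pair n (N + 1)
  have hm : ∀ p ∈ R, p.2 < m := fun p hp => by
    have h1 : p.2 ≤ N := hN ⟨p, hp, rfl⟩
    have h2 := Nat.right_le_pair n (N + 1)
    omega
  refine ⟨m, ?_, ?_⟩
  · rintro p (rfl | hp) q (rfl | hq)
    · simp
    · constructor
      · intro e
        exact absurd ⟨q.2, by simpa [show x = q.1 from e] using hq⟩ hx
      · intro e
        have := hm q hq
        simp only at e
        omega
    · constructor
      · intro e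
        exact absurd ⟨p.2, by simpa [← show p.1 = x from e] using hp⟩ hx
      · intro e
        have := hm p hp
        simp only at e
        omega
    · exact hC.1 p hp q hq
  · intro w t ht hi
    by_cases hall : ∀ i, t i ∈ R
    · exact hC.2 w t hall hi
    push Not at hall
    obtain ⟨i0, hi0⟩ := hall
    have hti0 : t i0 = (x, m) := (ht i0).resolve_right hi0
    have hxm : (x, m) ∉ R := hti0 ▸ hi0
    have hmx : mx w (fun i => (t i).2) = m := by
      apply le_antisymm
      · refine Finset.sup_le (fun i _ => ?_)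
        rcases ht i with h | h
        · simp [h]
        · exact (hm _ h).le
      · have := Finset.le_sup (f := fun i => (t i).2) (Finset.mem_univ i0)
        simpa [hti0] using this
    let s : Fin (w + 1) → Option R := fun i => if h : t i ∈ R then some ⟨t i, h⟩ else none
    have hs_inj : Injective s := by
      intro i j e
      apply hi
      by_cases h1 : t i ∈ R <;> by_cases h2 : t j ∈ R
      · simpa [s, h1, h2] using e
      · simp [s, h1, h2] at e
      · simp [s, h1, h2] at e
      · rw [(ht i).resolve_right h1, (ht j).resolve_right h2]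
    have hpat : pat w (fun i => (t i).2) = toP ⟨w, s⟩ := by
      simp only [pat, toP, hmx]
      congr 1
      funext i
      by_cases h1 : t i ∈ R
      · have := hm _ h1
        simp [s, h1, this.ne]
      · simp [s, hxm, (ht i).resolve_right h1]
    have hlb : lb ⟨w, s⟩ = lx w (fun i => (t i).1) := by
      simp only [lb]
      congr 1
      funext i
      by_cases h1 : t i ∈ R
      · simp [s, h1]
      · simp [s, hxm, (ht i).resolve_right h1]
    have hψm : ψ (Nat.unpair m).1 = (f1.toFinset, f2.toFinset) := by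
      simp [m, hn]
    simp only [lz, hmx, hψm, hpat, Set.Finite.mem_toFinset, toP_inj.mem_set_image, mem_ofPred_eq,
      hs_inj, true_and, hlb]
    ext <;> simp

theorem exists_union {α ι : Type} [Countable ι] (P : Set α → Prop) (D : ι → Set α) (R0 : Set α)
    (h0 : R0.Finite) (hP0 : P R0)
    (step : ∀ R : Set α, R.Finite → P R → ∀ i, ∃ a ∈ D i, P (insert a R)) :
    ∃ U : Set α, R0 ⊆ U ∧ (∀ i, ∃ a ∈ D i, a ∈ U) ∧
      ∀ F : Set α, F.Finite → F ⊆ U → ∃ R, F ⊆ R ∧ P R := by
  classical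
  obtain ⟨e, he⟩ := exists_surjective_nat (Option ι)
  choose nx hnx using step
  let st : ℕ → {R : Set α // R.Finite ∧ P R} → {R : Set α // R.Finite ∧ P R} := fun n R =>
    match e n with
    | none => R
    | some i => ⟨insert (nx R.1 R.2.1 R.2.2 i) R.1, R.2.1.insert _, (hnx R.1 R.2.1 R.2.2 i).2⟩
  let sq : ℕ → {R : Set α // R.Finite ∧ P R} := fun n =>
    Nat.rec ⟨R0, h0, hP0⟩ (fun n R => st n R) n
  have hst : ∀ n R, R.1 ⊆ (st n R).1 := by
    intro n R
    simp only [st]
    cases e n with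
    | none => exact subset_rfl
    | some i => exact Set.subset_insert _ _
  have hmono : Monotone (fun n => (sq n).1) :=
    monotone_nat_of_le_succ (fun n => hst n (sq n))
  refine ⟨⋃ n, (sq n).1, Set.subset_iUnion (fun n => (sq n).1) 0, ?_, ?_⟩
  · intro i
    obtain ⟨n, hn⟩ := he (some i)
    refine ⟨nx (sq n).1 (sq n).2.1 (sq n).2.2 i, (hnx _ _ _ i).1, Set.mem_iUnion.2 ⟨n + 1, ?_⟩⟩
    show _ ∈ (st n (sq n)).1
    simp only [st, hn]
    exact Set.mem_insert _ _
  · intro F hF hFU
    have : ∃ n, F ⊆ (sq n).1 := by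
      induction F, hF using Set.Finite.induction_on with
      | empty => exact ⟨0, Set.empty_subset _⟩
      | @insert a s _ _ ih =>
        obtain ⟨n, hn⟩ := ih ((Set.subset_insert _ _).trans hFU)
        obtain ⟨k, hk⟩ := Set.mem_iUnion.1 (hFU (Set.mem_insert a s))
        refine ⟨max n k, Set.insert_subset (hmono (le_max_right n k) hk)
          (hn.trans (hmono (le_max_left n k)))⟩
    obtain ⟨n, hn⟩ := this
    exact ⟨_, hn, (sq n).2.2⟩

theorem compat_of_local {X Z : Type} {lx : Lab X} {lz : Lab Z} {U : Set (X × Z)}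
    (h : ∀ F : Set (X × Z), F.Finite → F ⊆ U → ∃ R, F ⊆ R ∧ Compat lx lz R) : Compat lx lz U := by
  refine ⟨fun p hp q hq => ?_, fun w t ht hi => ?_⟩
  · obtain ⟨R, hR, hC⟩ := h {p, q} (Set.toFinite _) (by
      rintro r (rfl | rfl) <;> assumption)
    exact hC.1 p (hR (by simp)) q (hR (by simp))
  · obtain ⟨R, hR, hC⟩ := h (Set.range t) (Set.finite_range t) (by
      rintro r ⟨i, rfl⟩; exact ht i)
    exact hC.2 w t (fun i => hR ⟨i, rfl⟩) hi

theorem fun_of_compat {X Z : Type} {lx : Lab X} {lz : Lab Z} {U : Set (X × Z)}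
    (hU : Compat lx lz U) (f : X → Z) (hf : ∀ x, (x, f x) ∈ U) :
    Injective f ∧ ∀ (w : ℕ) (t : Fin (w + 1) → X), Injective t →
      lz w (fun i => f (t i)) = lx w t := by
  refine ⟨fun x y e => (hU.1 _ (hf x) _ (hf y)).2 e, fun w t ht => ?_⟩
  have := hU.2 w (fun i => (t i, f (t i))) (fun i => hf _) (fun i j e => ht (congrArg Prod.fst e))
  exact this.symm

theorem exists_embed {X Z : Type} [Countable X] (lx : Lab X) {lz : Lab Z} (hz : Ext lz) :
    ∃ f : X → Z, Injective f ∧ ∀ (w : ℕ) (t : Fin (w + 1) → X), Injective t →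
      lz w (fun i => f (t i)) = lx w t := by
  obtain ⟨U, -, hD, hL⟩ := exists_union (Compat lx lz) (fun x : X => {p : X × Z | p.1 = x}) ∅
    Set.finite_empty ⟨by simp, fun w t ht _ => absurd (ht 0) (by simp)⟩ (by
      intro R hR hC x
      obtain ⟨z, hz⟩ := hz X lx R hR hC x
      exact ⟨(x, z), rfl, hz⟩)
  have hU := compat_of_local hL
  have : ∀ x : X, ∃ z, (x, z) ∈ U := fun x => by
    obtain ⟨p, hp, hpU⟩ := hD x
    exact ⟨p.2, by rw [← show p.1 = x from hp]; exact hpU⟩
  choose f hf using this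
  exact ⟨f, fun_of_compat hU f hf⟩

theorem exists_auto {Z : Type} [Countable Z] {lz : Lab Z} (hz : Ext lz) (R0 : Set (Z × Z))
    (h0 : R0.Finite) (hC0 : Compat lz lz R0) :
    ∃ σ τ : Z → Z, LeftInverse τ σ ∧ RightInverse τ σ ∧
      (∀ (w : ℕ) (t : Fin (w + 1) → Z), Injective t → lz w (fun i => σ (t i)) = lz w t) ∧
      (∀ (w : ℕ) (t : Fin (w + 1) → Z), Injective t → lz w (fun i => τ (t i)) = lz w t) ∧
      ∀ p ∈ R0, σ p.1 = p.2 := by
  obtain ⟨U, hR0, hD, hL⟩ := exists_union (Compat lz lz)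
    (fun x : Z ⊕ Z => {p : Z × Z | Sum.elim (fun a => p.1 = a) (fun b => p.2 = b) x}) R0 h0 hC0 (by
      intro R hR hC x
      cases x with
      | inl a =>
        obtain ⟨z, hz⟩ := hz Z lz R hR hC a
        exact ⟨(a, z), rfl, hz⟩
      | inr b =>
        obtain ⟨z, hz⟩ := hz Z lz (Prod.swap '' R) (hR.image _) hC.swap b
        refine ⟨(z, b), rfl, ?_⟩
        have := hz.swap
        rw [Set.image_insert_eq, Set.image_image] at this
        simpa using this)
  have hU := compat_of_local hL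
  have h1 : ∀ x : Z, ∃ z, (x, z) ∈ U := fun x => by
    obtain ⟨p, hp, hpU⟩ := hD (Sum.inl x)
    exact ⟨p.2, by rw [← show p.1 = x from hp]; exact hpU⟩
  have h2 : ∀ z : Z, ∃ x, (x, z) ∈ U := fun x => by
    obtain ⟨p, hp, hpU⟩ := hD (Sum.inr x)
    exact ⟨p.1, by rw [← show p.2 = x from hp]; exact hpU⟩
  choose σ hσ using h1
  choose τ hτ using h2
  refine ⟨σ, τ, fun x => (hU.1 _ (hτ (σ x)) _ (hσ x)).2 rfl,
    fun z => (hU.1 _ (hσ (τ z)) _ (hτ z)).1 rfl, (fun_of_compat hU σ hσ).2,
    (fun_of_compat hU.swap τ (fun z => ⟨_, hτ z, rfl⟩)).2, fun p hp => ?_⟩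
  exact (hU.1 _ (hσ p.1) _ (hR0 hp)).1 rfl

end Pool.Agent.H611Z.Clone
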