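import Pool.Agent.H611Z.CloneGen

/-! A closed oligomorphic clone with a homomorphism to the projections and no continuous one. -/

set_option autoImplicit false

namespace Pool.Agent.H611Z.Clone

open Function Set Filter Topology

/-- Coordinatewise application of an operation to tuples. -/
def app {n w : ℕ} (f : (Fin n → ℕ) → ℕ) (a : Fin n → Fin (w + 1) → ℕ) : Fin (w + 1) → ℕ :=
  fun p => f (fun l => a l p)

/-- All argument tuples are injective. -/
def Good {n w : ℕ} (a : Fin n → Fin (w + 1) → ℕ) : Prop := ∀ l, Injective (a l)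

def ProjType (lab : Lab ℕ) {n : ℕ} (f : (Fin n → ℕ) → ℕ) (i : Fin n) : Prop :=
  ∀ (w : ℕ) (a : Fin n → Fin (w + 1) → ℕ), Good a → (lab w (app f a)).1 = (lab w (a i)).1

def ConstType (lab : Lab ℕ) {n : ℕ} (f : (Fin n → ℕ) → ℕ) : Prop :=
  (∀ (w : ℕ) (a a' : Fin n → Fin (w + 1) → ℕ), Good a → Good a' →
    (lab w (app f a)).1 = (lab w (app f a')).1) ∧
  (∀ (w w' : ℕ) (a : Fin n → Fin (w + 1) → ℕ) (a' : Fin n → Fin (w' + 1) → ℕ), Good a → Good a' →
    (lab w (app f a)).1 = true → (lab w' (app f a')).1 = true → w = w')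

def IsJ (lab : Lab ℕ) {n : ℕ} (f : (Fin n → ℕ) → ℕ) (w : ℕ) (s : Fin n → Bool) (j : Fin n) :
    Prop :=
  ∀ a : Fin n → Fin (w + 1) → ℕ, Good a → (∀ l, (lab w (a l)).1 = s l) →
    (lab w (app f a)).2 = (lab w (a j)).2

/-- The clone. -/
def Cl (lab : Lab ℕ) (n : ℕ) : Set ((Fin n → ℕ) → ℕ) :=
  {f | (∀ (w : ℕ) (a : Fin n → Fin (w + 1) → ℕ), Good a → Injective (app f a)) ∧
    (∀ (w : ℕ) (s : Fin n → Bool), ∃ j, IsJ lab f w s j) ∧
    ((∃ i, ProjType lab f i) ∨ ConstType lab f)}

variable {lab : Lab ℕ}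

theorem proj_mem (n : ℕ) (i : Fin n) : (fun x : Fin n → ℕ => x i) ∈ Cl lab n :=
  ⟨fun _ _ ha => ha i, fun _ _ => ⟨i, fun _ _ _ => rfl⟩, Or.inl ⟨i, fun _ _ _ => rfl⟩⟩

theorem s_det {n : ℕ} {f : (Fin n → ℕ) → ℕ} (hf : f ∈ Cl lab n) (w : ℕ) (s : Fin n → Bool) :
    ∃ b : Bool, ∀ a : Fin n → Fin (w + 1) → ℕ, Good a → (∀ l, (lab w (a l)).1 = s l) →
      (lab w (app f a)).1 = b := by
  rcases hf.2.2 with ⟨i, hi⟩ | hc
  · exact ⟨s i, fun a ha hs => (hi w a ha).trans (hs i)⟩
  · refine ⟨(lab w (app f (fun _ p => (p : ℕ)))).1, fun a ha _ => hc.1 w a _ ha ?_⟩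
    intro l p q e
    exact Fin.ext e

theorem comp_mem (n m : ℕ) (f : (Fin n → ℕ) → ℕ) (g : Fin n → (Fin m → ℕ) → ℕ)
    (hf : f ∈ Cl lab n) (hg : ∀ i, g i ∈ Cl lab m) :
    (fun x : Fin m → ℕ => f (fun i => g i x)) ∈ Cl lab m := by
  have hgood : ∀ (w : ℕ) (a : Fin m → Fin (w + 1) → ℕ), Good a →
      Good (fun l => app (g l) a) := fun w a ha l => (hg l).1 w a ha
  have happ : ∀ (w : ℕ) (a : Fin m → Fin (w + 1) → ℕ),
      app (fun x : Fin m → ℕ => f (fun i => g i x)) a = app f (fun l => app (g l) a) :=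
    fun _ _ => rfl
  refine ⟨fun w a ha => hf.1 w _ (hgood w a ha), fun w s => ?_, ?_⟩
  · choose b hb using fun l => s_det (hg l) w s
    obtain ⟨i, hi⟩ := hf.2.1 w b
    obtain ⟨j, hj⟩ := (hg i).2.1 w s
    refine ⟨j, fun a ha hs => ?_⟩
    rw [happ, hi _ (hgood w a ha) (fun l => hb l a ha hs)]
    exact hj a ha hs
  · rcases hf.2.2 with ⟨i, hi⟩ | hc
    · rcases (hg i).2.2 with ⟨j, hj⟩ | hc
      · refine Or.inl ⟨j, fun w a ha => ?_⟩
        rw [happ, hi w _ (hgood w a ha)]
        exact hj w a ha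
      · refine Or.inr ⟨fun w a a' ha ha' => ?_, fun w w' a a' ha ha' => ?_⟩
        · rw [happ, happ, hi w _ (hgood w a ha), hi w _ (hgood w a' ha')]
          exact hc.1 w a a' ha ha'
        · rw [happ, happ, hi w _ (hgood w a ha), hi w' _ (hgood w' a' ha')]
          exact hc.2 w w' a a' ha ha'
    · exact Or.inr ⟨fun w a a' ha ha' => hc.1 w _ _ (hgood w a ha) (hgood w a' ha'),
        fun w w' a a' ha ha' => hc.2 w w' _ _ (hgood w a ha) (hgood w' a' ha')⟩

theorem closed2 {n w w' : ℕ} (a : Fin n → Fin (w + 1) → ℕ) (a' : Fin n → Fin (w' + 1) → ℕ)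
    (Q : (Fin (w + 1) → ℕ) → (Fin (w' + 1) → ℕ) → Prop) :
    IsClosed {f : (Fin n → ℕ) → ℕ | Q (app f a) (app f a')} := by
  have hc : Continuous (fun f : (Fin n → ℕ) → ℕ => (app f a, app f a')) := by
    refine Continuous.prodMk ?_ ?_ <;>
    exact continuous_pi (fun p => continuous_apply _)
  exact (isClosed_discrete {x : (Fin (w + 1) → ℕ) × (Fin (w' + 1) → ℕ) | Q x.1 x.2}).preimage hc

theorem closed_all {X ι : Type} [TopologicalSpace X] (Q : ι → X → Prop)
    (h : ∀ i, IsClosed {x | Q i x}) : IsClosed {x | ∀ i, Q i x} := by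
  have : {x | ∀ i, Q i x} = ⋂ i, {x | Q i x} := by ext; simp
  rw [this]; exact isClosed_iInter h

theorem closed_ex {X ι : Type} [TopologicalSpace X] [Finite ι] (Q : ι → X → Prop)
    (h : ∀ i, IsClosed {x | Q i x}) : IsClosed {x | ∃ i, Q i x} := by
  have : {x | ∃ i, Q i x} = ⋃ i, {x | Q i x} := by ext; simp
  rw [this]; exact isClosed_iUnion_of_finite h

theorem cl_closed (n : ℕ) : IsClosed (Cl lab n) := by
  refine IsClosed.inter ?_ (IsClosed.inter ?_ (IsClosed.union ?_ (IsClosed.inter ?_ ?_)))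
  · exact closed_all _ fun w => closed_all _ fun a =>
      closed2 a a (fun x _ => Good a → Injective x)
  · exact closed_all _ fun w => closed_all _ fun s => closed_ex _ fun j => closed_all _ fun a =>
      closed2 a a (fun x _ => Good a → (∀ l, (lab w (a l)).1 = s l) →
        (lab w x).2 = (lab w (a j)).2)
  · exact closed_ex _ fun i => closed_all _ fun w => closed_all _ fun a =>
      closed2 a a (fun x _ => Good a → (lab w x).1 = (lab w (a i)).1)
  · exact closed_all _ fun w => closed_all _ fun a => closed_all _ fun a' =>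
      closed2 a a' (fun x y => Good a → Good a' → (lab w x).1 = (lab w y).1)
  · exact closed_all _ fun w => closed_all _ fun w' => closed_all _ fun a => closed_all _ fun a' =>
      closed2 a a' (fun x y => Good a → Good a' → (lab w x).1 = true → (lab w' y).1 = true →
        w = w')

theorem auto_mem {σ : ℕ → ℕ} (hi : Injective σ)
    (hσ : ∀ (w : ℕ) (t : Fin (w + 1) → ℕ), Injective t → lab w (fun i => σ (t i)) = lab w t) :
    (fun y : Fin 1 → ℕ => σ (y 0)) ∈ Cl lab 1 := by
  refine ⟨fun w a ha => hi.comp (ha 0), fun w s => ⟨0, fun a ha _ => ?_⟩,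
    Or.inl ⟨0, fun w a ha => ?_⟩⟩
  · exact congrArg Prod.snd (hσ w (a 0) (ha 0))
  · exact congrArg Prod.fst (hσ w (a 0) (ha 0))

theorem oligo (hl : Ext lab) (k : ℕ) :
    ∃ S : Finset (Fin k → ℕ), ∀ x : Fin k → ℕ, ∃ s ∈ S, ∃ σ τ : ℕ → ℕ,
      (fun y : Fin 1 → ℕ => σ (y 0)) ∈ Cl lab 1 ∧ (fun y : Fin 1 → ℕ => τ (y 0)) ∈ Cl lab 1 ∧
      Function.LeftInverse τ σ ∧ Function.RightInverse τ σ ∧ σ ∘ s = x := by
  classical
  let I := {p : Σ w : ℕ, Fin (w + 1) → Fin k | Injective p.2}
  have : Finite I := finite_inj (Fin k)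
  let tp : (Fin k → ℕ) → (Fin k → Fin k → Prop) × (I → Bool × Bool) := fun x =>
    (fun i j => x i = x j, fun p => lab p.1.1 (fun i => x (p.1.2 i)))
  have hfin : (Set.range tp).Finite := Set.toFinite _
  obtain ⟨T, hT, hTfin⟩ : ∃ T : Set (Fin k → ℕ), (∀ x, ∃ s ∈ T, tp s = tp x) ∧ T.Finite := by
    have : Finite (Set.range tp) := hfin
    refine ⟨Set.range (Set.rangeSplitting tp), fun x => ⟨_, ⟨⟨tp x, x, rfl⟩, rfl⟩, ?_⟩,
      Set.finite_range _⟩
    exact Set.apply_rangeSplitting tp _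
  refine ⟨hTfin.toFinset, fun x => ?_⟩
  obtain ⟨s, hs, e⟩ := hT x
  have hC : Compat lab lab (Set.range (fun i => (s i, x i))) := by
    refine ⟨?_, ?_⟩
    · rintro _ ⟨i, rfl⟩ _ ⟨j, rfl⟩
      exact (congrFun (congrFun (congrArg Prod.fst e) i) j).to_iff
    · intro w t ht hi
      choose ι hι using ht
      have hιi : Injective ι := fun i j e => hi (by rw [← hι i, ← hι j, e])
      have := congrFun (congrArg Prod.snd e) ⟨⟨w, ι⟩, hιi⟩
      simp only [tp] at this
      convert this using 3 with i i <;> rw [← hι]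
  obtain ⟨σ, τ, h1, h2, h3, h4, h5⟩ := exists_auto hl _ (Set.finite_range _) hC
  refine ⟨s, by simpa using hs, σ, τ, auto_mem h1.injective h3, auto_mem h2.injective h4, h1, h2,
    funext fun i => h5 _ ⟨i, rfl⟩⟩

theorem exists_lab (hl : Ext lab) (w : ℕ) (y : Bool × Bool) :
    ∃ t : Fin (w + 1) → ℕ, Injective t ∧ lab w t = y := by
  obtain ⟨f, hf, h⟩ := exists_embed (X := Fin (w + 1)) (fun _ _ => y) hl
  exact ⟨f, hf, h w id injective_id⟩

theorem isJ_unique (hl : Ext lab) {n w : ℕ} {f : (Fin n → ℕ) → ℕ} {s : Fin n → Bool}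
    {j j' : Fin n} (h : IsJ lab f w s j) (h' : IsJ lab f w s j') : j = j' := by
  classical
  choose t ht using exists_lab hl w
  let a : Fin n → Fin (w + 1) → ℕ := fun l => t (s l, decide (l = j))
  have ha : Good a := fun l => (ht _).1
  have hs : ∀ l, (lab w (a l)).1 = s l := fun l => by simp [a, (ht _).2]
  have := (h a ha hs).symm.trans (h' a ha hs)
  simp [a, (ht _).2] at this
  exact this.symm

theorem exists_hom (hl : Ext lab) :
    ∃ ξ : ∀ n : ℕ, ((Fin n → ℕ) → ℕ) → ℕ,
      (∀ (n : ℕ) (f : (Fin n → ℕ) → ℕ), f ∈ Cl lab n → ξ n f < n) ∧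
      (∀ (n : ℕ) (i : Fin n), ξ n (fun x : Fin n → ℕ => x i) = (i : ℕ)) ∧
      (∀ (n m : ℕ) (f : (Fin n → ℕ) → ℕ) (g : Fin n → (Fin m → ℕ) → ℕ),
          f ∈ Cl lab n → (∀ i, g i ∈ Cl lab m) → ∀ i : Fin n, ξ n f = (i : ℕ) →
          ξ m (fun x : Fin m → ℕ => f (fun j => g j x)) = ξ m (g i)) := by
  classical
  let E : ∀ n : ℕ, ((Fin n → ℕ) → ℕ) → Fin n → Prop := fun n f j =>
    ∀ᶠ w in (hyperfilter ℕ : Filter ℕ), IsJ lab f w (fun _ => false) j
  let ξ : ∀ n : ℕ, ((Fin n → ℕ) → ℕ) → ℕ := fun n f =>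
    if h : ∃ j, E n f j then (h.choose : ℕ) else 0
  have hE : ∀ n f, f ∈ Cl lab n → ∃ j, E n f j := fun n f hf =>
    Ultrafilter.eventually_exists_iff.1 (Eventually.of_forall fun w => hf.2.1 w _)
  have hξ : ∀ n f j, E n f j → ξ n f = (j : ℕ) := by
    intro n f j hj
    have h : ∃ j, E n f j := ⟨j, hj⟩
    simp only [ξ, dif_pos h]
    obtain ⟨w, h1, h2⟩ := (h.choose_spec.and hj).exists
    rw [isJ_unique hl h1 h2]
  have hz : ∀ n f, f ∈ Cl lab n → ∀ᶠ w in (hyperfilter ℕ : Filter ℕ),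
      ∀ a : Fin n → Fin (w + 1) → ℕ, Good a → (∀ l, (lab w (a l)).1 = false) →
        (lab w (app f a)).1 = false := by
    intro n f hf
    rcases hf.2.2 with ⟨i, hi⟩ | hc
    · exact Eventually.of_forall fun w a ha hs => (hi w a ha).trans (hs i)
    · refine hyperfilter_le_cofinite ?_
      refine Set.Subsingleton.finite ?_
      intro w hw w' hw'
      simp only [mem_compl_iff, mem_ofPred_eq, not_forall, Bool.not_eq_false] at hw hw'
      obtain ⟨a, ha, -, h1⟩ := hw
      obtain ⟨a', ha', -, h2⟩ := hw'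
      exact hc.2 w w' a a' ha ha' h1 h2
  refine ⟨ξ, fun n f hf => ?_, fun n i => ?_, fun n m f g hf hg i hi => ?_⟩
  · obtain ⟨j, hj⟩ := hE n f hf
    rw [hξ n f j hj]; exact j.2
  · exact hξ n _ i (Eventually.of_forall fun w a _ _ => rfl)
  · obtain ⟨i', hi'⟩ := hE n f hf
    have : i' = i := Fin.ext ((hξ n f i' hi').symm.trans hi)
    subst this
    obtain ⟨k, hk⟩ := hE m (g i') (hg i')
    rw [hξ m _ k hk]
    refine hξ m _ k ?_
    have hall := eventually_all.2 (fun l => hz m (g l) (hg l))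
    filter_upwards [hi', hk, hall] with w h1 h2 h3
    intro a ha hs
    have := h1 (fun l => app (g l) a) (fun l => (hg l).1 w a ha) (fun l => h3 l a ha hs)
    exact this.trans (h2 a ha hs)

open Classical in
/-- Label of a tuple, or nothing for a non injective tuple. -/
noncomputable def olab (lab : Lab ℕ) (w : ℕ) (t : Fin (w + 1) → ℕ) : Option (Bool × Bool) :=
  if Injective t then some (lab w t) else none

open Classical in
/-- The rule computing labels of images under a canonical binary operation. -/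
noncomputable def rule (c : ℕ → Bool → Prop) (w : ℕ) :
    Option (Bool × Bool) → Option (Bool × Bool) → Bool × Bool
  | some x, some y => (false, if c w x.1 then x.2 else y.2)
  | some x, none => (false, x.2)
  | none, some y => (false, y.2)
  | none, none => (false, false)

def Canon (lab : Lab ℕ) (c : ℕ → Bool → Prop) (f : (Fin 2 → ℕ) → ℕ) : Prop :=
  Injective f ∧ ∀ (w : ℕ) (t : Fin (w + 1) → Fin 2 → ℕ), Injective t →
    lab w (fun i => f (t i)) =
      rule c w (olab lab w (fun p => t p 0)) (olab lab w (fun p => t p 1))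

theorem exists_canon (hl : Ext lab) (c : ℕ → Bool → Prop) : ∃ f, Canon lab c f :=
  exists_embed (X := Fin 2 → ℕ)
    (fun w t => rule c w (olab lab w (fun p => t p 0)) (olab lab w (fun p => t p 1))) hl

theorem Canon.mem {c : ℕ → Bool → Prop} {f : (Fin 2 → ℕ) → ℕ} (h : Canon lab c f) :
    f ∈ Cl lab 2 := by
  classical
  have hinj : ∀ (w : ℕ) (a : Fin 2 → Fin (w + 1) → ℕ), Good a →
      Injective (fun p l => a l p) := fun w a ha p q e => ha 0 (congrFun e 0)
  have hlab : ∀ (w : ℕ) (a : Fin 2 → Fin (w + 1) → ℕ), Good a → lab w (app f a) =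
      (false, if c w (lab w (a 0)).1 then (lab w (a 0)).2 else (lab w (a 1)).2) := by
    intro w a ha
    have := h.2 w _ (hinj w a ha)
    simp only [olab] at this
    rw [if_pos (ha 0), if_pos (ha 1)] at this
    exact this
  refine ⟨fun w a ha => h.1.comp (hinj w a ha), fun w s => ?_, Or.inr ⟨?_, ?_⟩⟩
  · by_cases hc : c w (s 0)
    · exact ⟨0, fun a ha hs => by rw [hlab w a ha, hs 0, if_pos hc]⟩
    · exact ⟨1, fun a ha hs => by rw [hlab w a ha, hs 0, if_neg hc]⟩
  · intro w a a' ha ha'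
    rw [hlab w a ha, hlab w a' ha']
  · intro w w' a a' ha _ h1
    rw [hlab w a ha] at h1
    simp at h1

theorem no_cont (hl : Ext lab) (ξ : ∀ n : ℕ, ((Fin n → ℕ) → ℕ) → ℕ)
    (h1 : ∀ (n : ℕ) (f : (Fin n → ℕ) → ℕ), f ∈ Cl lab n → ξ n f < n)
    (h2 : ∀ (n : ℕ) (i : Fin n), ξ n (fun x : Fin n → ℕ => x i) = (i : ℕ))
    (h3 : ∀ (n m : ℕ) (f : (Fin n → ℕ) → ℕ) (g : Fin n → (Fin m → ℕ) → ℕ),
      f ∈ Cl lab n → (∀ i, g i ∈ Cl lab m) → ∀ i : Fin n, ξ n f = (i : ℕ) →
      ξ m (fun x : Fin m → ℕ => f (fun j => g j x)) = ξ m (g i))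
    (h4 : ∀ n : ℕ, ContinuousOn (ξ n) (Cl lab n)) : False := by
  classical
  have hun : ∀ (u : ℕ → ℕ) (g : (Fin 2 → ℕ) → ℕ), (fun y : Fin 1 → ℕ => u (y 0)) ∈ Cl lab 1 →
      g ∈ Cl lab 2 → (fun x => u (g x)) ∈ Cl lab 2 ∧ ξ 2 (fun x => u (g x)) = ξ 2 g := by
    intro u g hu hg
    refine ⟨comp_mem 1 2 _ (fun _ => g) hu (fun _ => hg), ?_⟩
    have := h1 1 _ hu
    exact h3 1 2 _ (fun _ => g) hu (fun _ => hg) 0 (by simpa using this)
  -- transfer along local isomorphisms, by continuity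
  have transfer : ∀ (f : (Fin 2 → ℕ) → ℕ) (v : ℕ), f ∈ Cl lab 2 → Injective f →
      (∀ N : ℕ, ∃ g ∈ Cl lab 2, Injective g ∧ ξ 2 g = v ∧ ∀ w < N,
        ∀ t : Fin (w + 1) → Fin 2 → ℕ, Injective t →
          lab w (fun i => g (t i)) = lab w (fun i => f (t i))) → ξ 2 f = v := by
    intro f v hf hfi H
    have hcl : f ∈ closure {h | h ∈ Cl lab 2 ∧ ξ 2 h = v} := by
      rw [mem_closure_iff_nhds]
      intro s hs
      rw [nhds_pi, Filter.mem_pi] at hs
      obtain ⟨I, hI, V, hV, hsub⟩ := hs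
      obtain ⟨g, hg, hgi, hgv, hloc⟩ := H I.ncard
      have hC : Compat lab lab ((fun x => (g x, f x)) '' I) := by
        refine ⟨?_, ?_⟩
        · rintro _ ⟨x, -, rfl⟩ _ ⟨y, -, rfl⟩
          simp [hgi.eq_iff, hfi.eq_iff]
        · intro w t ht hi
          choose ι hιI hι using ht
          have hιi : Injective ι := fun i j e => hi (by rw [← hι i, ← hι j, e])
          have hw : w < I.ncard := by
            have h5 : (Set.range ι).ncard ≤ I.ncard :=
              Set.ncard_le_ncard (by rintro _ ⟨i, rfl⟩; exact hιI i) hI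
            rw [Set.ncard_range_of_injective hιi] at h5
            simp at h5
            omega
          have := hloc w hw ι hιi
          convert this using 3 with i i <;> rw [← hι]
      obtain ⟨σ, τ, e1, -, e3, -, e5⟩ := exists_auto hl _ (hI.image _) hC
      obtain ⟨m1, m2⟩ := hun σ g (auto_mem e1.injective e3) hg
      refine ⟨fun x => σ (g x), hsub ?_, m1, m2.trans hgv⟩
      intro x hx
      have : σ (g x) = f x := e5 _ ⟨x, hx, rfl⟩
      simp only [this]
      exact mem_of_mem_nhds (hV x)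
    have := ((h4 2 f hf).mono (fun h (hh : h ∈ {h | h ∈ Cl lab 2 ∧ ξ 2 h = v}) => hh.1)
      ).mem_closure_image hcl
    have h6 : ξ 2 f ∈ closure ({v} : Set ℕ) :=
      closure_mono (by rintro _ ⟨h, hh, rfl⟩; exact hh.2) this
    simpa using h6
  choose cf hcf using exists_canon hl
  let val : (ℕ → Bool → Prop) → ℕ := fun c => ξ 2 (cf c)
  have hval : ∀ c f, Canon lab c f → ξ 2 f = val c := by
    intro c f hf
    refine transfer f _ hf.mem hf.1 (fun N => ⟨cf c, (hcf c).mem, (hcf c).1, rfl, ?_⟩)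
    intro w _ t ht
    rw [(hcf c).2 w t ht, hf.2 w t ht]
  -- inner twisting by a unary operation of constant type
  have twist : ∀ (c : ℕ → Bool → Prop) (δ : ℕ → Bool),
      (∀ w w', δ w = true → δ w' = true → w = w') → val (fun w _ => c w (δ w)) = val c := by
    intro c δ hδ
    obtain ⟨u, hui, hu⟩ := exists_embed (X := ℕ) (fun w t => (δ w, (lab w t).2)) hl
    have hum : (fun y : Fin 1 → ℕ => u (y 0)) ∈ Cl lab 1 := by
      refine ⟨fun w a ha => hui.comp (ha 0), fun w s => ⟨0, fun a ha _ => ?_⟩,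
        Or.inr ⟨fun w a a' ha ha' => ?_, fun w w' a a' ha ha' e e' => ?_⟩⟩
      · have := congrArg Prod.snd (hu w (a 0) (ha 0))
        exact this
      · exact (congrArg Prod.fst (hu w (a 0) (ha 0))).trans
          (congrArg Prod.fst (hu w (a' 0) (ha' 0))).symm
      · exact hδ w w' ((congrArg Prod.fst (hu w (a 0) (ha 0))).symm.trans e)
          ((congrArg Prod.fst (hu w' (a' 0) (ha' 0))).symm.trans e')
    obtain ⟨m1, m2⟩ := hun u (fun x => x 0) hum (proj_mem 2 0)
    let g : Fin 2 → (Fin 2 → ℕ) → ℕ := ![fun x => u (x 0), fun x => x 1]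
    have hg : ∀ i, g i ∈ Cl lab 2 := by
      intro i
      fin_cases i
      · exact m1
      · exact proj_mem 2 1
    have hξg : ∀ i, ξ 2 (g i) = (i : ℕ) := by
      intro i
      fin_cases i
      · exact m2.trans (h2 2 0)
      · exact h2 2 1
    have hgi : Injective (fun (x : Fin 2 → ℕ) (j : Fin 2) => g j x) := by
      intro x y e
      funext j
      fin_cases j
      · exact hui (congrFun e 0)
      · exact congrFun e 1
    have hcan : Canon lab (fun w _ => c w (δ w)) (fun x => cf c (fun j => g j x)) := by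
      refine ⟨(hcf c).1.comp hgi, fun w t ht => ?_⟩
      rw [(hcf c).2 w (fun i j => g j (t i)) (hgi.comp ht)]
      have e0 : olab lab w (fun p => g 0 (t p)) =
          (olab lab w (fun p => t p 0)).map (fun y => (δ w, y.2)) := by
        simp only [olab]
        by_cases hh : Injective (fun p => t p 0)
        · rw [if_pos hh, if_pos (show Injective (fun p => g 0 (t p)) from hui.comp hh)]
          exact congrArg some (hu w _ hh)
        · rw [if_neg hh, if_neg (show ¬ Injective (fun p => g 0 (t p)) from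
            fun h' => hh (Injective.of_comp (f := u) h'))]
          rfl
      have e1 : olab lab w (fun p => g 1 (t p)) = olab lab w (fun p => t p 1) := rfl
      rw [e0, e1]
      cases olab lab w (fun p => t p 0) <;> cases olab lab w (fun p => t p 1) <;> rfl
    have hlt := h1 2 _ (hcf c).mem
    have := h3 2 2 (cf c) g (hcf c).mem hg ⟨_, hlt⟩ rfl
    rw [← hval _ _ hcan, this, hξg]
  have step : ∀ N : ℕ, val (fun w _ => w < N) = val (fun _ _ => False) := by
    intro N
    induction N with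
    | zero => simp
    | succ N ih =>
      have a1 := twist (fun w b => w < N ∨ (w = N ∧ b = false)) (fun _ => false) (by simp)
      have a2 := twist (fun w b => w < N ∨ (w = N ∧ b = false)) (fun w => decide (w = N))
        (by intro w w' e e'; simp at e e'; omega)
      have b1 : (fun (w : ℕ) (_ : Bool) => w < N ∨ (w = N ∧ false = false)) =
          fun w _ => w < N + 1 := by
        funext w _; apply propext; simp; omega
      have b2 : (fun (w : ℕ) (_ : Bool) => w < N ∨ (w = N ∧ decide (w = N) = false)) =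
          fun w _ => w < N := by
        funext w _; apply propext; simp
      rw [b1] at a1
      rw [b2] at a2
      rw [a1, ← a2, ih]
  have lim : val (fun _ _ => True) = val (fun _ _ => False) := by
    refine transfer _ _ (hcf _).mem (hcf _).1 (fun N => ⟨cf (fun w _ => w < N), (hcf _).mem,
      (hcf _).1, step N, fun w hw t ht => ?_⟩)
    rw [(hcf _).2 w t ht, (hcf _).2 w t ht]
    cases olab lab w (fun p => t p 0) <;> cases olab lab w (fun p => t p 1) <;> simp [rule, hw]
  let g : Fin 2 → (Fin 2 → ℕ) → ℕ := fun j x => x j.rev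
  have hgi : Injective (fun (x : Fin 2 → ℕ) (j : Fin 2) => g j x) := by
    intro x y e
    funext j
    have := congrFun e j.rev
    simpa [g] using this
  have hcan : Canon lab (fun _ _ => True) (fun x => cf (fun _ _ => False) (fun j => g j x)) := by
    refine ⟨(hcf _).1.comp hgi, fun w t ht => ?_⟩
    rw [(hcf _).2 w (fun i j => g j (t i)) (hgi.comp ht)]
    have e0 : olab lab w (fun p => g 0 (t p)) = olab lab w (fun p => t p 1) := rfl
    have e1 : olab lab w (fun p => g 1 (t p)) = olab lab w (fun p => t p 0) := rfl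
    rw [e0, e1]
    cases olab lab w (fun p => t p 0) <;> cases olab lab w (fun p => t p 1) <;> simp [rule]
  have hlt := h1 2 _ (hcf (fun _ _ => False)).mem
  have := h3 2 2 (cf (fun _ _ => False)) g (hcf _).mem (fun j => proj_mem 2 j.rev) ⟨_, hlt⟩ rfl
  rw [hval _ _ hcan, lim] at this
  have h7 := h2 2 (Fin.rev ⟨_, hlt⟩)
  have h8 : val (fun _ _ => False) = ((Fin.rev (⟨_, hlt⟩ : Fin 2) : Fin 2) : ℕ) := this.trans h7
  rw [Fin.val_rev] at h8
  simp only [val] at h8
  omega

end Pool.Agent.H611Z.Clone
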