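import Mathlib

/-! Relational structures, first-order reducts, model-complete cores, pp-constructions and
stubborn structures. -/

set_option autoImplicit false

namespace Pool.Agent.H611Z.Stub

/-- A relational structure with domain `D` and with `σ n` as set of `n`-ary relation symbols. -/
abbrev Str (σ : ℕ → Type) (D : Type) : Type := ∀ n : ℕ, σ n → Set (Fin n → D)

/-- The first-order language with relation symbols `σ` and no function symbols. -/
def lang (σ : ℕ → Type) : FirstOrder.Language := ⟨fun _ => Empty, σ⟩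

/-- The structure as a first-order structure in the sense of Mathlib. -/
@[reducible] def toStructure {σ : ℕ → Type} {D : Type} (A : Str σ D) : (lang σ).Structure D where
  funMap := fun f _ => Empty.elim f
  RelMap := fun {n} R x => x ∈ A n R

/-- `S` is first-order definable in `A` without parameters. -/
def FoDef {σ : ℕ → Type} {D : Type} (A : Str σ D) {n : ℕ} (S : Set (Fin n → D)) : Prop :=
  ∃ φ : (lang σ).Formula (Fin n), ∀ x : Fin n → D,
    x ∈ S ↔ @FirstOrder.Language.Formula.Realize (lang σ) D (toStructure A) (Fin n) φ x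

/-- `A` is a first-order reduct of `B`. -/
def FoReduct {σ τ : ℕ → Type} {D : Type} (A : Str τ D) (B : Str σ D) : Prop :=
  ∀ (n : ℕ) (R : τ n), FoDef B (A n R)

/-- First-order interdefinability. -/
def Interdef {σ τ : ℕ → Type} {D : Type} (A : Str τ D) (B : Str σ D) : Prop :=
  FoReduct A B ∧ FoReduct B A

/-- Homomorphisms. -/
def IsHom {σ : ℕ → Type} {D E : Type} (A : Str σ D) (B : Str σ E) (h : D → E) : Prop :=
  ∀ (n : ℕ) (R : σ n) (x : Fin n → D), x ∈ A n R → h ∘ x ∈ B n R

/-- Homomorphic equivalence. -/
def HomEquiv {σ : ℕ → Type} {D E : Type} (A : Str σ D) (B : Str σ E) : Prop :=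
  (∃ h, IsHom A B h) ∧ ∃ h, IsHom B A h

/-- Automorphisms. -/
def IsAut {σ : ℕ → Type} {D : Type} (A : Str σ D) (g : D ≃ D) : Prop :=
  ∀ (n : ℕ) (R : σ n) (x : Fin n → D), x ∈ A n R ↔ g ∘ x ∈ A n R

/-- Every isomorphism `a i ↦ b i` between finite substructures extends to an automorphism. -/
def Homogeneous {σ : ℕ → Type} {D : Type} (A : Str σ D) : Prop :=
  ∀ (k : ℕ) (a b : Fin k → D), (∀ i j, a i = a j ↔ b i = b j) →
    (∀ (n : ℕ) (R : σ n) (v : Fin n → Fin k), a ∘ v ∈ A n R ↔ b ∘ v ∈ A n R) →
    ∃ g : D ≃ D, IsAut A g ∧ g ∘ a = b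

/-- The automorphism group is primitive: the only invariant equivalence relations are equality
and the full relation, and the group is transitive. -/
def Primitive {σ : ℕ → Type} {D : Type} (A : Str σ D) : Prop :=
  (∀ x y : D, ∃ g : D ≃ D, IsAut A g ∧ g x = y) ∧
  ∀ r : D → D → Prop, Equivalence r →
    (∀ g : D ≃ D, IsAut A g → ∀ x y, r x y → r (g x) (g y)) →
    (∀ x y, r x y → x = y) ∨ ∀ x y, r x y

/-- Model-complete core: automorphisms are dense in the endomorphisms for pointwise
convergence. -/
def MCCore {σ : ℕ → Type} {D : Type} (A : Str σ D) : Prop :=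
  ∀ e : D → D, IsHom A A e → ∀ F : Finset D, ∃ g : D ≃ D, IsAut A g ∧ ∀ x ∈ F, g x = e x

/-- Primitive positive definable sets of assignments to the variables `α`: atomic formulas
(relations of `A`, equality, true, false), conjunction, existential quantification. -/
inductive PPDef {σ : ℕ → Type} {D : Type} (A : Str σ D) : (α : Type) → Set (α → D) → Prop
  | rel {α : Type} (n : ℕ) (R : σ n) (v : Fin n → α) : PPDef A α {x | x ∘ v ∈ A n R}
  | eq {α : Type} (i j : α) : PPDef A α {x | x i = x j}
  | top {α : Type} : PPDef A α Set.univ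
  | bot {α : Type} : PPDef A α ∅
  | inter {α : Type} (S T : Set (α → D)) : PPDef A α S → PPDef A α T → PPDef A α (S ∩ T)
  | ex {α : Type} (S : Set (Option α → D)) : PPDef A (Option α) S →
      PPDef A α {x | ∃ y : D, (fun o : Option α => o.elim y x) ∈ S}

/-- `A` pp-constructs `C`: `C` is homomorphically equivalent to a pp-power of `A`. -/
def PPConstructs {σ τ : ℕ → Type} {D E : Type} (A : Str σ D) (C : Str τ E) : Prop :=
  ∃ (d : ℕ) (P : Str τ (Fin d → D)), 0 < d ∧
    (∀ (n : ℕ) (R : τ n),
      PPDef A (Fin n × Fin d) {y | (fun i j => y (i, j)) ∈ P n R}) ∧ HomEquiv P C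

/-- Stubborn: every model-complete core interdefinable with `B` pp-constructs every finite
structure (nonempty finite domain, finite signature). -/
def Stubborn {σ : ℕ → Type} {D : Type} (B : Str σ D) : Prop :=
  ∀ (σ' : ℕ → Type) (B' : Str σ' D), MCCore B' → Interdef B' B →
    ∀ (τ : ℕ → Type) (E : Type) (C : Str τ E), Finite (Σ n, τ n) → Finite E → Nonempty E →
      PPConstructs B' C

/-- The structure `(ℕ; =)`: no relation symbols, equality being part of the logic. -/
def pureSet : Str (fun _ => Empty) ℕ := fun _ R => Empty.elim R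

/-- Interdefinable with `(ℕ; =)` up to a bijection of the domains. -/
def InterdefEq {σ : ℕ → Type} {D : Type} (A : Str σ D) : Prop :=
  ∃ e : ℕ ≃ D, Interdef (fun n R => {x : Fin n → ℕ | e ∘ x ∈ A n R} : Str σ ℕ) pureSet

end Pool.Agent.H611Z.Stub
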