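import Pool.Agent.H611Z.StubMain

/-! Stubbornness of the betweenness and order structure, and the final assembly. -/

set_option autoImplicit false

namespace Pool.Agent.H611Z.Stub

open Function Set

/-- Arrow type theorem: a function preserving not-all-equal is a dictator up to sign. -/
theorem arrow {T : Type} [Finite T] (F : (T → Bool) → Prop)
    (hodd : ∀ s, F (fun r => !s r) ↔ ¬ F s)
    (hnae : ∀ s t u : T → Bool, (∀ r, ¬ (s r = t r ∧ t r = u r)) →
      ¬ ((F s ↔ F t) ∧ (F t ↔ F u))) :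
    ∃ r0, ∀ s, (F s ↔ F (fun _ => true)) ↔ s r0 = true := by
  classical
  let U : (T → Bool) → Prop := fun s => F s ↔ F (fun _ => true)
  have hc : ∀ s, U (fun r => !s r) ↔ ¬ U s := fun s => by
    simp only [U, hodd]; tauto
  have hmono : ∀ s t : T → Bool, (∀ r, s r = true → t r = true) → U s → U t := by
    intro s t hst hs
    by_contra ht
    have h1 := (hc t).2 ht
    refine hnae s (fun r => !t r) (fun _ => true) (fun r => ?_) ⟨hs.trans h1.symm, h1⟩
    have := hst r
    cases hs' : s r <;> cases ht' : t r <;> simp_all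
  have hinter : ∀ s t : T → Bool, U s → U t → U (fun r => s r && t r) := by
    intro s t hs ht
    by_contra hh
    have h1 := (hc _).2 hh
    refine hnae s t (fun r => !(s r && t r)) (fun r => ?_) ⟨hs.trans ht.symm, ht.trans h1.symm⟩
    cases s r <;> cases t r <;> simp
  have hbot : ¬ U (fun _ => false) := (hc (fun _ => true)).1.mt (by
    intro h; exact h Iff.rfl) |> fun h => by simpa using h
  have hex : ∃ r0, U (fun r => decide (r = r0)) := by
    by_contra hno
    push Not at hno
    have : ∀ S : Finset T, U (fun r => decide (r ∉ S)) := by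
      intro S
      induction S using Finset.induction_on with
      | empty => simp [U]
      | insert a S _ ih =>
        refine hmono _ _ ?_ (hinter _ _ ih ((hc _).2 (hno a)))
        intro r
        simp
        tauto
    have := Fintype.ofFinite T
    have h2 := ‹∀ S : Finset T, U (fun r => decide (r ∉ S))› Finset.univ
    simp only [Finset.mem_univ, not_true_eq_false, decide_false] at h2
    exact hbot h2
  obtain ⟨r0, h0⟩ := hex
  refine ⟨r0, fun s => ⟨fun hs => ?_, fun hs => hmono _ _ (fun r hr => ?_) h0⟩⟩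
  · by_contra hh
    refine hbot (hmono _ _ (fun r hr => ?_) (hinter _ _ hs h0))
    simp only [Bool.and_eq_true, decide_eq_true_eq] at hr
    exact absurd (hr.2 ▸ hr.1) hh
  · simp only [decide_eq_true_eq] at hr
    rw [hr]; exact hs

section
variable {D : Type} [Countable D] {p q : D → ℝ}

/-- An operation preserving the orbits preserves the betweenness of the first order. -/
theorem pres_bt (h : Gen p q) {T : Type} [Finite T] [Nonempty T] (f : (T → D) → D)
    (hf : ∀ (a : Fin 3 → D) (x : T → Fin 3 → D),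
      (∀ r, ∃ g : D ≃ D, IsAut (strB p q) g ∧ g ∘ a = x r) →
      ∃ g : D ≃ D, IsAut (strB p q) g ∧ g ∘ a = fun i => f (fun r => x r i))
    (x y z : T → D) (hb : ∀ r, Bt (p (x r)) (p (y r)) (p (z r))) :
    Bt (p (f x)) (p (f y)) (p (f z)) := by
  have key : ∀ (w : T → Fin 3 → D), (∀ r, Bt (p (w r 0)) (p (w r 1)) (p (w r 2))) →
      (∀ r r' i j, q (w r i) < q (w r j) ↔ q (w r' i) < q (w r' j)) →
      Bt (p (f fun r => w r 0)) (p (f fun r => w r 1)) (p (f fun r => w r 2)) := by
    intro w hw hq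
    obtain ⟨r0⟩ := ‹Nonempty T›
    obtain ⟨g, hg, he⟩ := hf (w r0) w (fun r => by
      rcases hw r0 with e | e <;> rcases hw r with e' | e'
      · refine aut_of_same h _ _ (fun i j => ?_) (hq r0 r)
        fin_cases i <;> fin_cases j <;> simp <;> grind
      · refine aut_of_rev h _ _ (fun i j => ?_) (hq r0 r)
        fin_cases i <;> fin_cases j <;> simp <;> grind
      · refine aut_of_rev h _ _ (fun i j => ?_) (hq r0 r)
        fin_cases i <;> fin_cases j <;> simp <;> grind
      · refine aut_of_same h _ _ (fun i j => ?_) (hq r0 r)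
        fin_cases i <;> fin_cases j <;> simp <;> grind)
    have := (hg 3 BSym.btw (w r0)).1 (hw r0)
    rw [he] at this
    exact this
  have hex : ∀ r, ∃ u v, Bt (p (x r)) (p u) (p v) ∧ Bt (p u) (p (y r)) (p v) ∧
      Bt (p u) (p v) (p (z r)) ∧ q (x r) < q u ∧ q (y r) < q u ∧ q (z r) < q u ∧ q u < q v := by
    intro r
    have b1 : ∀ a b : ℝ, a < b → ∀ L : Set ℝ, L.Finite → ∃ u, a < p u ∧ p u < b ∧
        ∀ l ∈ L, l < q u := by
      intro a b hab L hL
      obtain ⟨u, h1, h2, h3, -⟩ := h.box {a} {b} L ∅ (Set.toFinite _) (Set.toFinite _) hL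
        (Set.toFinite _) (by simpa using hab) (by simp)
      exact ⟨u, h1 a rfl, h2 b rfl, h3⟩
    rcases hb r with e | e
    · obtain ⟨u, u1, u2, u3⟩ := b1 _ _ e.1 {q (x r), q (y r), q (z r)} (Set.toFinite _)
      obtain ⟨v, v1, v2, v3⟩ := b1 _ _ e.2 {q u} (Set.toFinite _)
      refine ⟨u, v, Or.inl ⟨u1, by linarith⟩, Or.inl ⟨u2, v1⟩, Or.inl ⟨by linarith, v2⟩,
        u3 _ (by simp), u3 _ (by simp), u3 _ (by simp), v3 _ (by simp)⟩
    · obtain ⟨u, u1, u2, u3⟩ := b1 _ _ e.2 {q (x r), q (y r), q (z r)} (Set.toFinite _)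
      obtain ⟨v, v1, v2, v3⟩ := b1 _ _ e.1 {q u} (Set.toFinite _)
      refine ⟨u, v, Or.inr ⟨by linarith, u2⟩, Or.inr ⟨v2, u1⟩, Or.inr ⟨v1, by linarith⟩,
        u3 _ (by simp), u3 _ (by simp), u3 _ (by simp), v3 _ (by simp)⟩
  choose u v k1 k2 k3 k4 k5 k6 k7 using hex
  have c1 := key (fun r => ![x r, u r, v r]) k1 (fun r r' i j => by
    have := k4 r; have := k7 r; have := k4 r'; have := k7 r'
    fin_cases i <;> fin_cases j <;> simp <;> grind)
  have c2 := key (fun r => ![u r, y r, v r]) k2 (fun r r' i j => by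
    have := k5 r; have := k7 r; have := k5 r'; have := k7 r'
    fin_cases i <;> fin_cases j <;> simp <;> grind)
  have c3 := key (fun r => ![u r, v r, z r]) k3 (fun r r' i j => by
    have := k6 r; have := k7 r; have := k6 r'; have := k7 r'
    fin_cases i <;> fin_cases j <;> simp <;> grind)
  have c1' : Bt (p (f x)) (p (f u)) (p (f v)) := c1
  have c2' : Bt (p (f u)) (p (f y)) (p (f v)) := c2
  have c3' : Bt (p (f u)) (p (f v)) (p (f z)) := c3
  unfold Bt at *
  grind

omit [Countable D] in
/-- An operation preserving betweenness has a dictator, visible on two points. -/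
theorem dictator (h : Gen p q) {T : Type} [Finite T] [Nonempty T] (f : (T → D) → D)
    (hf : ∀ x y z : T → D, (∀ r, Bt (p (x r)) (p (y r)) (p (z r))) →
      Bt (p (f x)) (p (f y)) (p (f z)))
    (c0 c1 : D) (hc : p c0 < p c1) :
    ∃ r0, ∀ s : T → Bool,
      (p (f fun r => if s r then c0 else c1) < p (f fun r => if !s r then c0 else c1) ↔
        p (f fun _ => c0) < p (f fun _ => c1)) ↔ s r0 = true := by
  have hup : ∀ L : Set ℝ, L.Finite → ∃ u, ∀ l ∈ L, l < p u := fun L hL => by
    obtain ⟨u, h1, -⟩ := h.box L ∅ ∅ ∅ hL (Set.toFinite _) (Set.toFinite _)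
      (Set.toFinite _) (by simp) (by simp)
    exact ⟨u, h1⟩
  have hdn : ∀ L : Set ℝ, L.Finite → ∃ u, ∀ l ∈ L, p u < l := fun L hL => by
    obtain ⟨u, -, h1, -⟩ := h.box ∅ L ∅ ∅ (Set.toFinite _) hL (Set.toFinite _)
      (Set.toFinite _) (by simp) (by simp)
    exact ⟨u, h1⟩
  -- the orientation of the image of a pair only depends on the signs
  let Sg : (T → Bool) → (T → D) → (T → D) → Prop := fun s a b =>
    ∀ r, if s r then p (a r) < p (b r) else p (b r) < p (a r)
  have hsame : ∀ s a b a' b', Sg s a b → Sg s a' b' →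
      (p (f a) < p (f b) ↔ p (f a') < p (f b')) ∧ p (f a) ≠ p (f b) := by
    intro s a b a' b' h1 h2
    obtain ⟨hi, hhi⟩ := hup (range (p ∘ a) ∪ range (p ∘ b) ∪ range (p ∘ a') ∪ range (p ∘ b'))
      (Set.toFinite _)
    obtain ⟨lo, hlo⟩ := hdn (range (p ∘ a) ∪ range (p ∘ b) ∪ range (p ∘ a') ∪ range (p ∘ b'))
      (Set.toFinite _)
    let e : T → D := fun r => if s r then lo else hi
    let c : T → D := fun r => if s r then hi else lo
    have t1 : ∀ a b : T → D, Sg s a b → (∀ r, p lo < p (a r) ∧ p (a r) < p hi) →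
        (∀ r, p lo < p (b r) ∧ p (b r) < p hi) →
        Bt (p (f e)) (p (f a)) (p (f b)) ∧ Bt (p (f e)) (p (f b)) (p (f c)) := by
      intro a b hab ha hb
      refine ⟨hf _ _ _ fun r => ?_, hf _ _ _ fun r => ?_⟩ <;>
      · have := hab r; have := ha r; have := hb r
        cases hs : s r <;> simp_all [e, c, Bt]
    have t2 := t1 a b h1 (fun r => ⟨hlo _ (by simp), hhi _ (by simp)⟩)
      (fun r => ⟨hlo _ (by simp), hhi _ (by simp)⟩)
    have t3 := t1 a' b' h2 (fun r => ⟨hlo _ (by simp), hhi _ (by simp)⟩)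
      (fun r => ⟨hlo _ (by simp), hhi _ (by simp)⟩)
    unfold Bt at t2 t3
    grind
  let pt : (T → Bool) → T → D := fun s r => if s r then c0 else c1
  have hpt : ∀ s, Sg s (pt s) (pt fun r => !s r) := by
    intro s r
    cases hs : s r <;> simp [pt, hs, hc]
  obtain ⟨c2, hc2⟩ := hup {p c1} (Set.toFinite _)
  have hc2' : p c1 < p c2 := hc2 _ rfl
  refine arrow (fun s => p (f (pt s)) < p (f (pt fun r => !s r))) (fun s => ?_)
    (fun s t u hn => ?_)
  · have := (hsame s _ _ _ _ (hpt s) (hpt s)).2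
    simp only [Bool.not_not]
    grind
  · let a : T → D := fun r => if s r then (if u r then c1 else c0) else (if u r then c2 else c1)
    let b : T → D := fun r => if t r then (if s r then c1 else c0) else (if s r then c2 else c1)
    let c : T → D := fun r => if u r then (if t r then c1 else c0) else (if t r then c2 else c1)
    have h02 := hc.trans hc2'
    have s1 : Sg s a b := fun r => by
      have := hn r
      cases hs : s r <;> cases ht : t r <;> cases hu : u r <;> simp_all [a, b]
    have s2 : Sg t b c := fun r => by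
      have := hn r
      cases hs : s r <;> cases ht : t r <;> cases hu : u r <;> simp_all [b, c]
    have s3 : Sg u c a := fun r => by
      have := hn r
      cases hs : s r <;> cases ht : t r <;> cases hu : u r <;> simp_all [a, c]
    have e1 := hsame s _ _ _ _ s1 (hpt s)
    have e2 := hsame t _ _ _ _ s2 (hpt t)
    have e3 := hsame u _ _ _ _ s3 (hpt u)
    rw [← e1.1, ← e2.1, ← e3.1]
    have := e1.2; have := e2.2; have := e3.2
    grind

theorem stubbornB (h : Gen p q) : Stubborn (strB p q) := by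
  classical
  intro σ' B' hcore hint τ E C _ hE hne
  have hol : Oligo B' := fun α hα => by
    obtain ⟨S, hS, hrep⟩ := oligoB h α hα
    refine ⟨S, hS, fun x => ?_⟩
    obtain ⟨s, hs, g, hg, e⟩ := hrep x
    exact ⟨s, hs, g, hint.1.aut hg, e⟩
  obtain ⟨c0, -⟩ := h.box ∅ ∅ ∅ ∅ (Set.toFinite _) (Set.toFinite _) (Set.toFinite _)
    (Set.toFinite _) (by simp) (by simp)
  obtain ⟨c1, hc1, -⟩ := h.box {p c0} ∅ ∅ ∅ (Set.toFinite _) (Set.toFinite _) (Set.toFinite _)
    (Set.toFinite _) (by simp) (by simp)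
  have hc : p c0 < p c1 := hc1 _ rfl
  obtain ⟨d, ⟨e⟩⟩ := Finite.exists_equiv_fin (E → Bool)
  let π : E → Fin d → D := fun x j => if e.symm j x then c0 else c1
  let P : Str τ (Fin d → D) := fun n R =>
    {u | (C n R).Nonempty ∧ ∃ f, IsPol B' (C n R) f ∧ ∀ i j, u i j = f (fun r => π (r.1 i) j)}
  let Dict : (Fin d → D) → E → Prop := fun u x => ∀ s : E → Bool,
    (p (u (e s)) < p (u (e fun y => !s y)) ↔
      p (u (e fun _ => true)) < p (u (e fun _ => false))) ↔ s x = true
  have huniq : ∀ u x x', Dict u x → Dict u x' → x = x' := by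
    intro u x x' h1 h2
    have := (h2 (fun y => decide (y = x))).1 ((h1 (fun y => decide (y = x))).2 (by simp))
    simp only [decide_eq_true_eq] at this
    exact this.symm
  refine ⟨d, P, (e fun _ => true).pos, fun n R => ?_,
    ⟨fun u => if hu : ∃ x, Dict u x then hu.choose else Classical.arbitrary E, ?_⟩, π, ?_⟩
  · by_cases hR : (C n R).Nonempty
    · have : Nonempty (C n R) := hR.to_subtype
      have := ppdef_gen hol (α := Fin n × Fin d) (T := C n R) (fun r a => π (r.1 a.1) a.2)
      convert this using 1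
      ext y
      simp only [P, mem_ofPred_eq, hR, true_and, Prod.forall]
    · have : {y : Fin n × Fin d → D | (fun i j => y (i, j)) ∈ P n R} = ∅ := by
        ext y
        simp [P, hR]
      rw [this]
      exact PPDef.bot
  · rintro n R u ⟨hR, f, hf, hu⟩
    have : Nonempty (C n R) := hR.to_subtype
    obtain ⟨r0, hr0⟩ := dictator h f (pres_bt h f (fun a x hx => by
      obtain ⟨g, hg, he⟩ := pol_orbit hcore hf a x (fun r => by
        obtain ⟨g, hg, he⟩ := hx r
        exact ⟨g, hint.1.aut hg, he⟩)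
      exact ⟨g, hint.2.aut hg, he⟩)) c0 c1 hc
    have hd : ∀ i, Dict (u i) (r0.1 i) := by
      intro i s
      have := hr0 (fun r => s (r.1 i))
      simpa [hu, π] using this
    have : ((fun u => if hu : ∃ x, Dict u x then hu.choose else Classical.arbitrary E) ∘ u) =
        r0.1 := by
      funext i
      have hx : ∃ x, Dict (u i) x := ⟨_, hd i⟩
      simp only [comp_apply, dif_pos hx]
      exact huniq _ _ _ hx.choose_spec (hd i)
    rw [this]
    exact r0.2
  · intro n R x hx
    exact ⟨⟨x, hx⟩, fun y => y ⟨x, hx⟩, fun n R y hy => hy ⟨x, hx⟩, fun i j => rfl⟩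

omit [Countable D] in
theorem core_bad (h : Gen p q) (E : Type) (C : Str ASym E) (hC : MCCore C)
    (he : HomEquiv (strA q) C) : Nontrivial E ∧
      (∀ (ρ : ℕ → Type) (H : Str ρ E), Interdef C H → ¬ Stubborn H) ∧ ¬ InterdefEq C := by
  classical
  obtain ⟨⟨φ, hφ⟩, ψ, hψ⟩ := he
  obtain ⟨c0, -⟩ := h.box ∅ ∅ ∅ ∅ (Set.toFinite _) (Set.toFinite _) (Set.toFinite _)
    (Set.toFinite _) (by simp) (by simp)
  obtain ⟨c1, -, -, hc1, -⟩ := h.box ∅ ∅ {q c0} ∅ (Set.toFinite _) (Set.toFinite _)
    (Set.toFinite _) (Set.toFinite _) (by simp) (by simp)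
  have hc : q c0 < q c1 := hc1 _ rfl
  have h1 : φ ∘ ![c0, c1] ∈ C 2 ASym.lt := hφ 2 ASym.lt ![c0, c1] hc
  have h2 : q (ψ (φ c0)) < q (ψ (φ c1)) := hψ 2 ASym.lt _ h1
  refine ⟨⟨φ c0, φ c1, fun e => by simp [e] at h2⟩, fun ρ H hH hs => ?_, ?_⟩
  · let m : D → D → D := fun a b => if q a ≤ q b then a else b
    have hm : ∀ a b, q (m a b) = min (q a) (q b) := by
      intro a b
      simp only [m, min_def]
      split_ifs <;> rfl
    refine not_constructs (A := C) (fun x => φ (m (ψ (x true)) (ψ (x false)))) ?_ ?_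
      (hs ASym C hC hH _ Bool _ ?_ inferInstance inferInstance)
    · intro n R x hx
      cases R
      have e1 : q (ψ (x true 0)) < q (ψ (x true 1)) := hψ 2 ASym.lt _ (hx true)
      have e2 : q (ψ (x false 0)) < q (ψ (x false 1)) := hψ 2 ASym.lt _ (hx false)
      refine hφ 2 ASym.lt (fun i => m (ψ (x true i)) (ψ (x false i))) ?_
      show q (m _ _) < q (m _ _)
      rw [hm, hm]
      exact min_lt_min e1 e2
    · intro x
      congr 1
      apply h.iq
      rw [hm, hm, min_comm]
      rfl
    · refine Finite.of_surjective (fun _ : Unit => (⟨2, ⟨rfl⟩⟩ : Σ n : ℕ, PLift (n = 2))) ?_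
      rintro ⟨n, ⟨rfl⟩⟩
      exact ⟨(), rfl⟩
  · rintro ⟨e, hred, -⟩
    have := (hred 2 ASym.lt).aut (g := Equiv.swap (e.symm (φ c0)) (e.symm (φ c1)))
      (fun n R => Empty.elim R) ![e.symm (φ c0), e.symm (φ c1)]
    have h3 : e ∘ ![e.symm (φ c0), e.symm (φ c1)] ∈ C 2 ASym.lt := by
      convert h1 using 1
      ext i
      fin_cases i <;> simp
    have h4 := hψ 2 ASym.lt _ (this.1 h3)
    have h5 : q (ψ (φ c1)) < q (ψ (φ c0)) := by simpa [strA] using h4
    exact absurd h2 h5.asymm

end

theorem main : ∃ (D : Type) (_ : Countable D) (_ : Infinite D) (σ τ : ℕ → Type)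
    (B : Str σ D) (A : Str τ D),
    Finite (Σ n, σ n) ∧ Homogeneous B ∧ Primitive B ∧ Stubborn B ∧ FoReduct A B ∧ MCCore A ∧
    ∀ (E : Type) (C : Str τ E), MCCore C → HomEquiv A C →
      Nontrivial E ∧ (∀ (ρ : ℕ → Type) (H : Str ρ E), Interdef C H → ¬ Stubborn H) ∧
      ¬ InterdefEq C := by
  obtain ⟨p, q, h⟩ := exists_gen
  exact ⟨ℚ × ℚ, inferInstance, inferInstance, BSym, ASym, strB p q, strA q, finite_BSym,
    homog h, primitive h, stubbornB h, reduct_AB p q, coreA h, core_bad h⟩

end Pool.Agent.H611Z.Stub
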