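import Pool.Agent.H611Z.StubPP

/-! The generic pair of linear orders, with betweenness of the first and the second order. -/

set_option autoImplicit false

namespace Pool.Agent.H611Z.Stub

open Function Set

/-- Two injective real coordinates with dense joint range. -/
structure Gen {D : Type} (p q : D → ℝ) : Prop where
  ip : Injective p
  iq : Injective q
  dense : DenseRange (fun x => (p x, q x))

theorem Gen.neg {D : Type} {p q : D → ℝ} (h : Gen p q) : Gen (fun x => - p x) q := by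
  refine ⟨fun x y e => h.ip (neg_injective e), h.iq, ?_⟩
  have hs : Surjective (fun z : ℝ × ℝ => (-z.1, z.2)) := fun z => ⟨(-z.1, z.2), by simp⟩
  exact hs.denseRange.comp h.dense (by fun_prop)

theorem exists_gen : ∃ p q : ℚ × ℚ → ℝ, Gen p q := by
  have hirr := irrational_sqrt_two
  have key : ∀ (a b : ℚ), (a : ℝ) + b * √2 = 0 → a = 0 ∧ b = 0 := by
    intro a b h
    by_cases hb : b = 0
    · subst hb
      simpa using h
    · exfalso
      apply hirr
      refine ⟨-a / b, ?_⟩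
      have hb' : (b : ℝ) ≠ 0 := by exact_mod_cast hb
      push_cast
      field_simp
      linarith
  refine ⟨fun x => x.1 + x.2 * √2, fun x => x.1 - x.2 * √2, ?_, ?_, ?_⟩
  · intro x y e
    have := key (x.1 - y.1) (x.2 - y.2) (by push_cast; simp only at e; linarith)
    exact Prod.ext (by linarith [this.1]) (by linarith [this.2])
  · intro x y e
    have := key (x.1 - y.1) (y.2 - x.2) (by push_cast; simp only at e; linarith)
    exact Prod.ext (by linarith [this.1]) (by linarith [this.2])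
  · have h2 : (√2 : ℝ) ≠ 0 := by positivity
    have hs : Surjective (fun z : ℝ × ℝ => (z.1 + z.2 * √2, z.1 - z.2 * √2)) := by
      intro z
      refine ⟨((z.1 + z.2) / 2, (z.1 - z.2) / (2 * √2)), ?_⟩
      ext <;> simp only <;> field_simp <;> ring
    have hd : DenseRange (Prod.map ((↑) : ℚ → ℝ) ((↑) : ℚ → ℝ)) :=
      Rat.denseRange_cast.prodMap Rat.denseRange_cast
    exact hs.denseRange.comp hd (by fun_prop)

theorem Gen.box {D : Type} {p q : D → ℝ} (h : Gen p q) (L1 U1 L2 U2 : Set ℝ)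
    (f1 : L1.Finite) (f2 : U1.Finite) (f3 : L2.Finite) (f4 : U2.Finite)
    (h1 : ∀ l ∈ L1, ∀ u ∈ U1, l < u) (h2 : ∀ l ∈ L2, ∀ u ∈ U2, l < u) :
    ∃ z, (∀ l ∈ L1, l < p z) ∧ (∀ u ∈ U1, p z < u) ∧ (∀ l ∈ L2, l < q z) ∧
      ∀ u ∈ U2, q z < u := by
  have op : ∀ L U : Set ℝ, L.Finite → U.Finite → (∀ l ∈ L, ∀ u ∈ U, l < u) →
      IsOpen ((⋂ l ∈ L, Ioi l) ∩ ⋂ u ∈ U, Iio u) ∧
        ((⋂ l ∈ L, Ioi l) ∩ ⋂ u ∈ U, Iio u).Nonempty := by
    intro L U hL hU h
    refine ⟨(hL.isOpen_biInter fun l _ => isOpen_Ioi).inter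
      (hU.isOpen_biInter fun l _ => isOpen_Iio), ?_⟩
    obtain ⟨m, hm1, hm2⟩ := Order.exists_between_finsets hL.toFinset hU.toFinset
      (by simpa using h)
    exact ⟨m, by simpa using hm1, by simpa using hm2⟩
  obtain ⟨o1, n1⟩ := op L1 U1 f1 f2 h1
  obtain ⟨o2, n2⟩ := op L2 U2 f3 f4 h2
  obtain ⟨z, hz⟩ := h.dense.exists_mem_open (o1.prod o2) (n1.prod n2)
  simp only [mem_prod, mem_inter_iff, mem_iInter, mem_Ioi, mem_Iio] at hz
  exact ⟨z, hz.1.1, hz.1.2, hz.2.1, hz.2.2⟩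

/-- Order compatibility of a set of pairs; the first coordinate only matters when `c` holds. -/
def OC {D : Type} (c : Prop) (p q p' q' : D → ℝ) (R : Set (D × D)) : Prop :=
  ∀ a ∈ R, ∀ b ∈ R, (c → (p a.1 < p b.1 ↔ p' a.2 < p' b.2)) ∧ (q a.1 < q b.1 ↔ q' a.2 < q' b.2)

theorem OC.ext {D : Type} {c : Prop} {p q p' q' : D → ℝ} (h : Gen p q) (h' : Gen p' q')
    {R : Set (D × D)} (hR : R.Finite) (hC : OC c p q p' q' R) (x : D) :
    ∃ z, OC c p q p' q' (insert (x, z) R) := by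
  by_cases hx : ∃ z, (x, z) ∈ R
  · obtain ⟨z, hz⟩ := hx
    exact ⟨z, by rwa [Set.insert_eq_of_mem hz]⟩
  have hne : ∀ a ∈ R, a.1 ≠ x := fun a ha e => hx ⟨a.2, by rw [← e]; exact ha⟩
  obtain ⟨z, z1, z2, z3, z4⟩ := h'.box ((fun a => p' a.2) '' {a ∈ R | c ∧ p a.1 < p x})
    ((fun a => p' a.2) '' {a ∈ R | c ∧ p x < p a.1})
    ((fun a => q' a.2) '' {a ∈ R | q a.1 < q x}) ((fun a => q' a.2) '' {a ∈ R | q x < q a.1})
    ((hR.subset fun a ha => ha.1).image _) ((hR.subset fun a ha => ha.1).image _)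
    ((hR.subset fun a ha => ha.1).image _) ((hR.subset fun a ha => ha.1).image _)
    (by
      rintro _ ⟨a, ha, rfl⟩ _ ⟨b, hb, rfl⟩
      exact ((hC a ha.1 b hb.1).1 ha.2.1).1 (ha.2.2.trans hb.2.2))
    (by
      rintro _ ⟨a, ha, rfl⟩ _ ⟨b, hb, rfl⟩
      exact (hC a ha.1 b hb.1).2.1 (ha.2.trans hb.2))
  have k1 : ∀ a ∈ R, c → (p a.1 < p x ∧ p' a.2 < p' z) ∨ (p x < p a.1 ∧ p' z < p' a.2) := by
    intro a ha hc
    rcases lt_or_gt_of_ne (h.ip.ne (hne a ha)) with e | e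
    · exact Or.inl ⟨e, z1 _ ⟨a, ⟨ha, hc, e⟩, rfl⟩⟩
    · exact Or.inr ⟨e, z2 _ ⟨a, ⟨ha, hc, e⟩, rfl⟩⟩
  have k2 : ∀ a ∈ R, (q a.1 < q x ∧ q' a.2 < q' z) ∨ (q x < q a.1 ∧ q' z < q' a.2) := by
    intro a ha
    rcases lt_or_gt_of_ne (h.iq.ne (hne a ha)) with e | e
    · exact Or.inl ⟨e, z3 _ ⟨a, ⟨ha, e⟩, rfl⟩⟩
    · exact Or.inr ⟨e, z4 _ ⟨a, ⟨ha, e⟩, rfl⟩⟩
  refine ⟨z, ?_⟩
  rintro a (rfl | ha) b (rfl | hb)
  · simp
  · refine ⟨fun hc => ?_, ?_⟩
    · rcases k1 b hb hc with ⟨e1, e2⟩ | ⟨e1, e2⟩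
      · exact iff_of_false (not_lt_of_gt e1) (not_lt_of_gt e2)
      · exact iff_of_true e1 e2
    · rcases k2 b hb with ⟨e1, e2⟩ | ⟨e1, e2⟩
      · exact iff_of_false (not_lt_of_gt e1) (not_lt_of_gt e2)
      · exact iff_of_true e1 e2
  · refine ⟨fun hc => ?_, ?_⟩
    · rcases k1 a ha hc with ⟨e1, e2⟩ | ⟨e1, e2⟩
      · exact iff_of_true e1 e2
      · exact iff_of_false (not_lt_of_gt e1) (not_lt_of_gt e2)
    · rcases k2 a ha with ⟨e1, e2⟩ | ⟨e1, e2⟩
      · exact iff_of_true e1 e2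
      · exact iff_of_false (not_lt_of_gt e1) (not_lt_of_gt e2)
  · exact hC a ha b hb

theorem OC.swap {D : Type} {c : Prop} {p q p' q' : D → ℝ} {R : Set (D × D)}
    (h : OC c p q p' q' R) : OC c p' q' p q (Prod.swap '' R) := by
  rintro _ ⟨a, ha, rfl⟩ _ ⟨b, hb, rfl⟩
  exact ⟨fun hc => ((h a ha b hb).1 hc).symm, (h a ha b hb).2.symm⟩

theorem exists_iso {D : Type} [Countable D] {c : Prop} {p q p' q' : D → ℝ} (h : Gen p q)
    (h' : Gen p' q') {R : Set (D × D)} (hR : R.Finite) (hC : OC c p q p' q' R) :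
    ∃ g : D ≃ D, (∀ x y, (c → (p x < p y ↔ p' (g x) < p' (g y))) ∧
      (q x < q y ↔ q' (g x) < q' (g y))) ∧ ∀ a ∈ R, g a.1 = a.2 := by
  obtain ⟨U, hR0, hD, hL⟩ := Clone.exists_union (OC c p q p' q')
    (fun x : D ⊕ D => {a : D × D | Sum.elim (fun u => a.1 = u) (fun v => a.2 = v) x}) R hR hC (by
      intro R hR hC x
      cases x with
      | inl a =>
        obtain ⟨z, hz⟩ := hC.ext h h' hR a
        exact ⟨(a, z), rfl, hz⟩
      | inr b =>
        obtain ⟨z, hz⟩ := hC.swap.ext h' h (hR.image _) b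
        refine ⟨(z, b), rfl, ?_⟩
        have := hz.swap
        rw [Set.image_insert_eq, Set.image_image] at this
        simpa using this)
  have hU : OC c p q p' q' U := by
    intro a ha b hb
    obtain ⟨R', hR', hC'⟩ := hL {a, b} (Set.toFinite _) (by
      rintro r (rfl | rfl) <;> assumption)
    exact hC' a (hR' (by simp)) b (hR' (by simp))
  have heq : ∀ a ∈ U, ∀ b ∈ U, a.1 = b.1 ↔ a.2 = b.2 := by
    intro a ha b hb
    have e1 := (hU a ha b hb).2
    have e2 := (hU b hb a ha).2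
    rw [← h.iq.eq_iff, ← h'.iq.eq_iff, le_antisymm_iff, le_antisymm_iff, ← not_lt, ← not_lt,
      ← not_lt, ← not_lt, e1, e2]
  have h1 : ∀ x : D, ∃ z, (x, z) ∈ U := fun x => by
    obtain ⟨a, ha, haU⟩ := hD (Sum.inl x)
    exact ⟨a.2, by rw [← show a.1 = x from ha]; exact haU⟩
  have h2 : ∀ z : D, ∃ x, (x, z) ∈ U := fun x => by
    obtain ⟨a, ha, haU⟩ := hD (Sum.inr x)
    exact ⟨a.1, by rw [← show a.2 = x from ha]; exact haU⟩
  choose s hs using h1
  choose t ht using h2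
  refine ⟨⟨s, t, fun x => (heq _ (ht (s x)) _ (hs x)).2 rfl,
    fun z => (heq _ (hs (t z)) _ (ht z)).1 rfl⟩, fun x y => hU _ (hs x) _ (hs y), fun a ha => ?_⟩
  exact (heq _ (hs a.1) _ (hR0 ha)).1 rfl

/-- Strict betweenness of reals. -/
def Bt (a b c : ℝ) : Prop := (a < b ∧ b < c) ∨ (c < b ∧ b < a)

inductive BSym : ℕ → Type
  | btw : BSym 3
  | lt : BSym 2

inductive ASym : ℕ → Type
  | lt : ASym 2

def strB {D : Type} (p q : D → ℝ) : Str BSym D := fun _ R =>
  match R with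
  | BSym.btw => {x | Bt (p (x 0)) (p (x 1)) (p (x 2))}
  | BSym.lt => {x | q (x 0) < q (x 1)}

def strA {D : Type} (q : D → ℝ) : Str ASym D := fun _ R =>
  match R with
  | ASym.lt => {x | q (x 0) < q (x 1)}

theorem finite_BSym : Finite (Σ n, BSym n) := by
  refine Finite.of_surjective
    (fun b : Bool => if b then (⟨3, BSym.btw⟩ : Σ n, BSym n) else ⟨2, BSym.lt⟩) ?_
  rintro ⟨n, R⟩
  cases R
  · exact ⟨true, rfl⟩
  · exact ⟨false, rfl⟩

theorem reduct_AB {D : Type} (p q : D → ℝ) : FoReduct (strA q) (strB p q) := by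
  intro n R
  cases R
  exact foDef_rel (strB p q) 2 BSym.lt

section
variable {D : Type} [Countable D] {p q : D → ℝ}

theorem aut_of_same (h : Gen p q) {α : Type} [Finite α] (a b : α → D)
    (h1 : ∀ i j, p (a i) < p (a j) ↔ p (b i) < p (b j))
    (h2 : ∀ i j, q (a i) < q (a j) ↔ q (b i) < q (b j)) :
    ∃ g : D ≃ D, IsAut (strB p q) g ∧ g ∘ a = b := by
  obtain ⟨g, hg, he⟩ := exists_iso (c := True) h h (Set.finite_range (fun i => (a i, b i))) (by
    rintro _ ⟨i, rfl⟩ _ ⟨j, rfl⟩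
    exact ⟨fun _ => h1 i j, h2 i j⟩)
  refine ⟨g, ?_, funext fun i => he _ ⟨i, rfl⟩⟩
  intro n R x
  cases R
  · simp only [strB, mem_ofPred_eq, Bt, comp_apply, ← fun x y => (hg x y).1 trivial]
  · exact (hg _ _).2

theorem aut_of_rev (h : Gen p q) {α : Type} [Finite α] (a b : α → D)
    (h1 : ∀ i j, p (a i) < p (a j) ↔ p (b j) < p (b i))
    (h2 : ∀ i j, q (a i) < q (a j) ↔ q (b i) < q (b j)) :
    ∃ g : D ≃ D, IsAut (strB p q) g ∧ g ∘ a = b := by
  obtain ⟨g, hg, he⟩ := exists_iso (c := True) h h.neg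
    (Set.finite_range (fun i => (a i, b i))) (by
      rintro _ ⟨i, rfl⟩ _ ⟨j, rfl⟩
      exact ⟨fun _ => (h1 i j).trans neg_lt_neg_iff.symm, h2 i j⟩)
  refine ⟨g, ?_, funext fun i => he _ ⟨i, rfl⟩⟩
  have hg' : ∀ x y, p (g y) < p (g x) ↔ p x < p y := fun x y =>
    (((hg x y).1 trivial).trans neg_lt_neg_iff).symm
  intro n R x
  cases R
  · simp only [strB, mem_ofPred_eq, Bt, comp_apply, hg']
    tauto
  · exact (hg _ _).2

omit [Countable D] in
theorem bt_dichotomy {α : Type} (a b : α → ℝ) (he : ∀ i j, a i = a j ↔ b i = b j)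
    (hb : ∀ i j k, Bt (a i) (a j) (a k) ↔ Bt (b i) (b j) (b k)) :
    (∀ i j, a i < a j ↔ b i < b j) ∨ ∀ i j, a i < a j ↔ b j < b i := by
  have step : ∀ i j k, a i ≠ a j → a i ≠ a k →
      ((a i < a j ↔ b i < b j) ↔ (a i < a k ↔ b i < b k)) := by
    intro i j k h1 h2
    have e1 := he i j
    have e2 := he i k
    have e3 := hb j i k
    unfold Bt at e3
    grind
  have sym : ∀ i j, a i ≠ a j → ((a i < a j ↔ b i < b j) ↔ (a j < a i ↔ b j < b i)) := by
    intro i j h1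
    have e1 := he i j
    grind
  by_contra hcon
  push Not at hcon
  obtain ⟨⟨i, j, h1⟩, k, l, h2⟩ := hcon
  have hij : a i ≠ a j := by have := he i j; grind
  have hkl : a k ≠ a l := by have := he k l; grind
  have hkl' : (a k < a l ↔ b k < b l) := by have := he k l; grind
  have hij' : ¬ (a i < a j ↔ b i < b j) := by grind
  apply hij'
  by_cases e : a i = a k
  · have e' := (he i k).1 e
    refine (step i j l hij (by rw [e]; exact hkl)).2 ?_
    rw [e, e']
    exact hkl'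
  · refine (step i j k hij e).2 ((sym i k e).2 ?_)
    exact (step k i l (Ne.symm e) hkl).2 hkl'

theorem homog (h : Gen p q) : Homogeneous (strB p q) := by
  intro k a b he hr
  have h2 : ∀ i j, q (a i) < q (a j) ↔ q (b i) < q (b j) := fun i j => hr 2 BSym.lt ![i, j]
  rcases bt_dichotomy (fun i => p (a i)) (fun i => p (b i))
    (fun i j => by rw [h.ip.eq_iff, h.ip.eq_iff, he]) (fun i j l => hr 3 BSym.btw ![i, j, l])
    with h1 | h1
  · exact aut_of_same h a b h1 h2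
  · exact aut_of_rev h a b h1 h2

theorem pair_trans (h : Gen p q) {x y x' y' : D} (h1 : q x < q y) (h2 : q x' < q y') :
    ∃ g : D ≃ D, IsAut (strB p q) g ∧ g x = x' ∧ g y = y' := by
  have n1 : x ≠ y := fun e => by simp [e] at h1
  have n2 : x' ≠ y' := fun e => by simp [e] at h2
  have hq : ∀ i j : Fin 2, q (![x, y] i) < q (![x, y] j) ↔ q (![x', y'] i) < q (![x', y'] j) := by
    intro i j
    fin_cases i <;> fin_cases j <;> simp [h1, h2, h1.asymm, h2.asymm]
  have : ∃ g : D ≃ D, IsAut (strB p q) g ∧ g ∘ ![x, y] = ![x', y'] := by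
    rcases lt_or_gt_of_ne (h.ip.ne n1) with e1 | e1 <;>
    rcases lt_or_gt_of_ne (h.ip.ne n2) with e2 | e2
    · refine aut_of_same h _ _ (fun i j => ?_) hq
      fin_cases i <;> fin_cases j <;> simp [e1, e2, e1.asymm, e2.asymm]
    · refine aut_of_rev h _ _ (fun i j => ?_) hq
      fin_cases i <;> fin_cases j <;> simp [e1, e2, e1.asymm, e2.asymm]
    · refine aut_of_rev h _ _ (fun i j => ?_) hq
      fin_cases i <;> fin_cases j <;> simp [e1, e2, e1.asymm, e2.asymm]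
    · refine aut_of_same h _ _ (fun i j => ?_) hq
      fin_cases i <;> fin_cases j <;> simp [e1, e2, e1.asymm, e2.asymm]
  obtain ⟨g, hg, he⟩ := this
  exact ⟨g, hg, congrFun he 0, congrFun he 1⟩

theorem primitive (h : Gen p q) : Primitive (strB p q) := by
  refine ⟨fun x y => ?_, fun r hr hinv => ?_⟩
  · obtain ⟨g, hg, he⟩ := aut_of_same h (fun _ : Unit => x) (fun _ => y) (by simp) (by simp)
    exact ⟨g, hg, congrFun he ()⟩
  · by_contra hcon
    push Not at hcon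
    obtain ⟨⟨x, y, hxy, hne⟩, u, v, huv⟩ := hcon
    have key : ∀ x y, r x y → q x < q y → ∀ u v, q u < q v → r u v := by
      intro x y hxy e u v e'
      obtain ⟨g, hg, rfl, rfl⟩ := pair_trans h e e'
      exact hinv g hg x y hxy
    have key2 : ∀ u v, q u < q v → r u v := by
      rcases lt_or_gt_of_ne (h.iq.ne hne) with e | e
      · exact key x y hxy e
      · exact key y x (hr.symm hxy) e
    apply huv
    rcases lt_trichotomy (q u) (q v) with e | e | e
    · exact key2 u v e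
    · rw [h.iq e]; exact hr.refl v
    · exact hr.symm (key2 v u e)

theorem oligoB (h : Gen p q) : Oligo (strB p q) := by
  intro α hα
  let tp : (α → D) → (α → α → Prop) × (α → α → Prop) := fun x =>
    (fun i j => p (x i) < p (x j), fun i j => q (x i) < q (x j))
  have : Finite (Set.range tp) := Set.toFinite _
  refine ⟨Set.range (Set.rangeSplitting tp), Set.finite_range _, fun x =>
    ⟨_, ⟨⟨tp x, x, rfl⟩, rfl⟩, ?_⟩⟩
  have e := Set.apply_rangeSplitting tp ⟨tp x, x, rfl⟩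
  exact aut_of_same h _ _ (fun i j => (congrFun (congrFun (congrArg Prod.fst e) i) j).to_iff)
    (fun i j => (congrFun (congrFun (congrArg Prod.snd e) i) j).to_iff)

theorem coreA (h : Gen p q) : MCCore (strA q) := by
  intro e he F
  have he' : ∀ x y, q x < q y → q (e x) < q (e y) := fun x y hxy => he 2 ASym.lt ![x, y] hxy
  obtain ⟨g, hg, hF⟩ := exists_iso (c := False) h h
    ((F.finite_toSet).image (fun x => (x, e x))) (by
      rintro _ ⟨x, -, rfl⟩ _ ⟨y, -, rfl⟩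
      refine ⟨False.elim, he' x y, fun hxy => ?_⟩
      rcases lt_trichotomy (q x) (q y) with e1 | e1 | e1
      · exact e1
      · rw [h.iq e1] at hxy; simp at hxy
      · exact absurd (he' y x e1) (not_lt_of_gt hxy))
  refine ⟨g, ?_, fun x hx => hF _ ⟨x, hx, rfl⟩⟩
  intro n R x
  cases R
  exact (hg _ _).2

end

end Pool.Agent.H611Z.Stub
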