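import Pool.Agent.H611Z.StubDefs
import Pool.Agent.H611Z.CloneGen

/-! Polymorphisms and pp-definability over oligomorphic structures. -/

set_option autoImplicit false

namespace Pool.Agent.H611Z.Stub

open Function Set

variable {σ τ : ℕ → Type} {D : Type}

def IsPol (A : Str σ D) (T : Type) (f : (T → D) → D) : Prop :=
  ∀ (n : ℕ) (R : σ n) (x : T → Fin n → D), (∀ r, x r ∈ A n R) →
    (fun i => f (fun r => x r i)) ∈ A n R

def Oligo (A : Str σ D) : Prop :=
  ∀ (α : Type), Finite α → ∃ S : Set (α → D), S.Finite ∧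
    ∀ x : α → D, ∃ s ∈ S, ∃ g : D ≃ D, IsAut A g ∧ g ∘ s = x

theorem FoDef.aut {A : Str σ D} {n : ℕ} {S : Set (Fin n → D)} (h : FoDef A S) {g : D ≃ D}
    (hg : IsAut A g) (x : Fin n → D) : x ∈ S ↔ g ∘ x ∈ S := by
  obtain ⟨φ, hφ⟩ := h
  let _ := toStructure A
  let G : FirstOrder.Language.Equiv (lang σ) D D :=
    { toEquiv := g
      map_fun' := fun f _ => Empty.elim f
      map_rel' := fun R y => (hg _ R y).symm }
  rw [hφ, hφ]
  exact (FirstOrder.Language.StrongHomClass.realize_formula G φ).symm

theorem FoReduct.aut {A : Str τ D} {B : Str σ D} (h : FoReduct A B) {g : D ≃ D}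
    (hg : IsAut B g) : IsAut A g := fun n R x => (h n R).aut hg x

theorem foDef_rel (A : Str σ D) (n : ℕ) (R : σ n) : FoDef A (A n R) := by
  let _ := toStructure A
  refine ⟨FirstOrder.Language.Relations.formula (L := lang σ) R
    (fun i => FirstOrder.Language.Term.var i), fun x => ?_⟩
  exact (FirstOrder.Language.Formula.realize_rel (L := lang σ) (M := D) (R := R)
    (ts := fun i => FirstOrder.Language.Term.var i) (v := x)).symm

theorem interdef_refl (A : Str σ D) : Interdef A A := ⟨foDef_rel A, foDef_rel A⟩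

theorem IsAut.symm {A : Str σ D} {g : D ≃ D} (hg : IsAut A g) : IsAut A g.symm := by
  intro n R x
  rw [hg n R (g.symm ∘ x)]
  have : g ∘ g.symm ∘ x = x := by ext; simp
  rw [this]

theorem PPDef.pol {A : Str σ D} {T : Type} [Nonempty T] {f : (T → D) → D} (hf : IsPol A T f)
    {α : Type} {S : Set (α → D)} (h : PPDef A α S) :
    ∀ x : T → α → D, (∀ r, x r ∈ S) → (fun a => f (fun r => x r a)) ∈ S := by
  induction h with
  | rel n R v => exact fun x hx => hf n R (fun r => x r ∘ v) hx
  | eq i j =>
    intro x hx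
    show f _ = f _
    congr 1
    funext r
    exact hx r
  | top => exact fun _ _ => trivial
  | bot => exact fun x hx => (hx (Classical.arbitrary T)).elim
  | inter S T' _ _ ih1 ih2 => exact fun x hx => ⟨ih1 x fun r => (hx r).1, ih2 x fun r => (hx r).2⟩
  | ex S _ ih =>
    intro x hx
    choose y hy using hx
    refine ⟨f y, ?_⟩
    have := ih (fun r o => o.elim (y r) (x r)) hy
    convert this using 2 with o
    cases o <;> rfl

theorem PPDef.aut {A : Str σ D} {g : D ≃ D} (hg : IsAut A g)
    {α : Type} {S : Set (α → D)} (h : PPDef A α S) (x : α → D) (hx : x ∈ S) : g ∘ x ∈ S :=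
  PPDef.pol (T := Unit) (f := fun y => g (y ())) (fun n R y hy => (hg n R (y ())).1 (hy ())) h
    (fun _ => x) (fun _ => hx)

theorem PPDef.comap {A : Str σ D} {α : Type} {S : Set (α → D)} (h : PPDef A α S) :
    ∀ {β : Type} (v : α → β), PPDef A β {y | y ∘ v ∈ S} := by
  induction h with
  | rel n R w => exact fun v => PPDef.rel n R (v ∘ w)
  | eq i j => exact fun v => PPDef.eq (v i) (v j)
  | top => exact fun _ => PPDef.top
  | bot => exact fun _ => PPDef.bot
  | inter S T _ _ ih1 ih2 => exact fun v => PPDef.inter _ _ (ih1 v) (ih2 v)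
  | ex S _ ih =>
    intro β v
    have := PPDef.ex _ (ih (Option.map v))
    convert this using 1
    ext x
    refine exists_congr (fun y => iff_of_eq (congrArg (· ∈ S) ?_))
    funext o
    cases o <;> rfl

theorem finite_ppdef {A : Str σ D} (hA : Oligo A) (α : Type) [Finite α] :
    {S : Set (α → D) | PPDef A α S}.Finite := by
  obtain ⟨S0, hS0, hrep⟩ := hA α inferInstance
  refine Set.Finite.of_finite_image (f := fun S => S ∩ S0) (hS0.powerset.subset ?_) ?_
  · rintro _ ⟨S, -, rfl⟩
    exact Set.inter_subset_right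
  · have key : ∀ S S' : Set (α → D), PPDef A α S → PPDef A α S' → S ∩ S0 = S' ∩ S0 → S ⊆ S' := by
      intro S S' hS hS' e x hx
      obtain ⟨s, hs, g, hg, rfl⟩ := hrep x
      have h1 : s ∈ S := by
        have := hS.aut hg.symm _ hx
        convert this using 1
        ext; simp
      have h2 : s ∈ S' ∩ S0 := e ▸ ⟨h1, hs⟩
      exact hS'.aut hg _ h2.1
    intro S hS S' hS' e
    exact Set.Subset.antisymm (key S S' hS hS' e) (key S' S hS' hS e.symm)

theorem ppdef_sInter {A : Str σ D} {α : Type} (F : Set (Set (α → D))) (hF : F.Finite)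
    (h : ∀ S ∈ F, PPDef A α S) : PPDef A α (⋂₀ F) := by
  induction F, hF using Set.Finite.induction_on with
  | empty => simpa using PPDef.top
  | @insert a s _ _ ih =>
    rw [Set.sInter_insert]
    exact PPDef.inter _ _ (h a (Set.mem_insert _ _))
      (ih fun S hS => h S (Set.mem_insert_of_mem _ hS))

/-- The least pp-definable set containing given tuples. -/
theorem exists_least {A : Str σ D} (hA : Oligo A) {α T : Type} [Finite α] (t : T → α → D) :
    ∃ Q : Set (α → D), PPDef A α Q ∧ (∀ r, t r ∈ Q) ∧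
      ∀ Q', PPDef A α Q' → (∀ r, t r ∈ Q') → Q ⊆ Q' := by
  refine ⟨⋂₀ {S | PPDef A α S ∧ ∀ r, t r ∈ S}, ppdef_sInter _
    ((finite_ppdef hA α).subset fun S hS => hS.1) fun S hS => hS.1, fun r S hS => hS.2 r,
    fun Q' h1 h2 => Set.sInter_subset_of_mem ⟨h1, h2⟩⟩

/-- Finitely generated subpowers of the polymorphism algebra are pp-definable. -/
theorem ppdef_gen [Countable D] {A : Str σ D} (hA : Oligo A) {α T : Type} [Finite α] [Finite T]
    [Nonempty T] (t : T → α → D) :
    PPDef A α {s | ∃ f, IsPol A T f ∧ ∀ a, s a = f (fun r => t r a)} := by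
  classical
  obtain ⟨Q, hQ, hQt, hQl⟩ := exists_least hA t
  suffices h : {s | ∃ f, IsPol A T f ∧ ∀ a, s a = f (fun r => t r a)} = Q by rw [h]; exact hQ
  apply Set.Subset.antisymm
  · rintro s ⟨f, hf, hs⟩
    have := hQ.pol hf t hQt
    rwa [show s = fun a => f (fun r => t r a) from funext hs]
  intro s hs
  let P : Set ((T → D) × D) → Prop := fun R =>
    ∀ (β : Type) (w : β → (T → D) × D), (∀ b, w b ∈ R) → ∀ Q', PPDef A β Q' →
      (∀ r, (fun b => (w b).1 r) ∈ Q') → (fun b => (w b).2) ∈ Q'
  have hP0 : P (Set.range (fun a => (fun r => t r a, s a))) := by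
    intro β w hw Q' hQ' hr
    choose v hv using hw
    have h1 := hQl _ (hQ'.comap v) (fun r => by
      have := hr r
      show t r ∘ v ∈ Q'
      convert this using 2 with b
      rw [← hv b]; rfl) hs
    have h2 : s ∘ v ∈ Q' := h1
    convert h2 using 2 with b
    rw [← hv b]; rfl
  obtain ⟨U, hU0, hUD, hUL⟩ := Clone.exists_union P
    (fun x : T → D => {p : (T → D) × D | p.1 = x}) _ (Set.finite_range _) hP0 (by
      intro R hR hP x
      have : Finite R := hR
      obtain ⟨Q1, h1, h2, h3⟩ := exists_least hA (α := Option R)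
        (fun r o => o.elim (x r) (fun p => p.1.1 r))
      obtain ⟨z, hz⟩ := hP R (fun p => p.1) (fun p => p.2) _ (PPDef.ex _ h1)
        (fun r => ⟨x r, h2 r⟩)
      refine ⟨(x, z), rfl, ?_⟩
      intro β w hw Q' hQ' hr
      let v : β → Option R := fun b => if h : w b ∈ R then some ⟨w b, h⟩ else none
      have h4 := h3 _ (hQ'.comap v) (fun r => by
        have := hr r
        show _ ∘ v ∈ Q'
        convert this using 2 with b
        by_cases h : w b ∈ R
        · simp [v, h]
        · have e := (hw b).resolve_right h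
          have h' : (x, z) ∉ R := e ▸ h
          simp [v, e, h']) hz
      have h5 : _ ∘ v ∈ Q' := h4
      convert h5 using 2 with b
      by_cases h : w b ∈ R
      · simp [v, h]
      · have e := (hw b).resolve_right h
        have h' : (x, z) ∉ R := e ▸ h
        simp [v, e, h'])
  have hex : ∀ x : T → D, ∃ z, (x, z) ∈ U := fun x => by
    obtain ⟨p, hp, hpU⟩ := hUD x
    exact ⟨p.2, by rw [← show p.1 = x from hp]; exact hpU⟩
  choose f hf using hex
  refine ⟨f, ?_, ?_⟩
  · intro n R x hx
    obtain ⟨R', hR', hP⟩ := hUL (Set.range (fun i => (fun r => x r i, f (fun r => x r i))))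
      (Set.finite_range _) (by rintro _ ⟨i, rfl⟩; exact hf _)
    exact hP (Fin n) _ (fun i => hR' ⟨i, rfl⟩) _ (PPDef.rel n R id) hx
  · intro a
    obtain ⟨R', hR', hP⟩ := hUL {(fun r => t r a, s a), (fun r => t r a, f (fun r => t r a))}
      (Set.toFinite _) (by
        rintro _ (rfl | rfl)
        · exact hU0 ⟨a, rfl⟩
        · exact hf _)
    exact hP Bool (fun b => if b then (fun r => t r a, s a) else
      (fun r => t r a, f (fun r => t r a)))
      (fun b => by cases b <;> exact hR' (by simp)) _ (PPDef.eq true false) (fun r => rfl)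

/-- Polymorphisms of a model-complete core preserve orbits. -/
theorem pol_orbit {A : Str σ D} (hA : MCCore A) {T : Type} {f : (T → D) → D} (hf : IsPol A T f)
    {k : ℕ} (a : Fin k → D) (x : T → Fin k → D)
    (hx : ∀ r, ∃ g : D ≃ D, IsAut A g ∧ g ∘ a = x r) :
    ∃ g : D ≃ D, IsAut A g ∧ g ∘ a = fun i => f (fun r => x r i) := by
  classical
  choose g hg using hx
  obtain ⟨g0, h0, h1⟩ := hA (fun y => f (fun r => g r y))
    (fun n R y hy => hf n R (fun r => g r ∘ y) (fun r => ((hg r).1 n R y).1 hy))
    (Finset.univ.image a)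
  refine ⟨g0, h0, funext fun i => ?_⟩
  rw [Function.comp_apply, h1 (a i) (by simp)]
  congr 1
  funext r
  exact congrFun (hg r).2 i

/-- A structure with a symmetric binary polymorphism does not pp-construct an irreflexive
symmetric edge. -/
theorem not_constructs {A : Str σ D} (f : (Bool → D) → D) (hf : IsPol A Bool f)
    (hsym : ∀ x : Bool → D, f (fun b => x (!b)) = f x) :
    ¬ PPConstructs A (fun n _ => {x : Fin n → Bool | Injective x} :
      Str (fun n => PLift (n = 2)) Bool) := by
  rintro ⟨d, P, -, hP, ⟨ψ, hψ⟩, φ, hφ⟩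
  have h1 := hφ 2 ⟨rfl⟩ ![true, false] (by show Injective _; decide)
  have h2 := hφ 2 ⟨rfl⟩ ![false, true] (by show Injective _; decide)
  have h3 := (hP 2 ⟨rfl⟩).pol hf
    (fun b p => φ (if b then ![true, false] p.1 else ![false, true] p.1) p.2) (fun b => by
      cases b
      · exact h2
      · exact h1)
  have h4 : Injective _ := hψ 2 ⟨rfl⟩ _ h3
  have : (0 : Fin 2) = 1 := by
    apply h4
    simp only [Function.comp_apply]
    congr 1
    funext j
    rw [← hsym]
    congr 1
    funext b
    cases b <;> rfl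
  exact absurd this (by decide)

end Pool.Agent.H611Z.Stub
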